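import Pool.Agent.Helper89.RAT.Dom
import Pool.Agent.Helper26.MT.Ze

/-! THE EXPONENT OF THE GRADIENT IN THE DIRECTION `z`: pointwise and mean exponents, bounds, monotonicity under dominance,
comparison with a zoom. -/

set_option autoImplicit false

namespace Pool.Agent.Helper89.RAT

open Finset Filter Topology Matrix Pool.Agent.Helper69.RK Pool.Agent.Helper31.EC Pool.Agent.Helper31.EC.Sp
open Pool.Agent.Helper40.EL Pool.Agent.Helper89.LX Pool.Agent.Helper3.LF Pool.Agent.Helper84.MT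
open Pool.Agent.Helper95.LF (PdM)
open Pool.Agent.Helper14.MC (gx vx vol_eq vx_UB vx_nonneg vol_opt_le vol_opt_eq)

noncomputable section

variable {S : Sp} {M D : ℕ}

/-- the exponent of the gradient in the direction `z` -/
def xz (Q : S.VV M) (z : Fin M) (k : ℕ) (ω : (S.F k).Ω) (A : Matrix (Mon M D) (Mon M D) ℝ) : ℝ :=
  Real.logb 2 (Jz Q z k ω A) / (2 * (S.F k).n)

/-- the mean exponents -/
def zv (Q : S.VV M) (z : Fin M) (x : ∀ k, FD (S.F k) (Mon M D)) (k : ℕ) : ℝ :=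
  ∑ ω, (x k).l.T.μ ω * xz Q z k ((x k).l.p.π ω) ((x k).g ω)

/-- the mean exponent -/
def zx (Q : S.VV M) (z : Fin M) (x : ∀ k, FD (S.F k) (Mon M D)) : ℝ := ul (zv Q z x)

theorem xz_nonneg (Q : S.VV M) (z : Fin M) (k : ℕ) (ω : (S.F k).Ω) {A : Matrix (Mon M D) (Mon M D) ℝ}
    (hA : ∀ x, 0 ≤ x ⬝ᵥ (A *ᵥ x)) : 0 ≤ xz Q z k ω A := by
  have hn := (S.F k).pos
  exact div_nonneg (Real.logb_nonneg (by norm_num) (one_le_Jz Q z k ω hA)) (by positivity)

/-- the gradient in one direction is below the determinant -/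
theorem Jz_le_GQ (Q : S.VV M) (z : Fin M) (k : ℕ) (ω : (S.F k).Ω) {A : Matrix (Mon M D) (Mon M D) ℝ} (hs : A.IsSymm)
    (hA : ∀ x, 0 ≤ x ⬝ᵥ (A *ᵥ x)) : Jz Q z k ω A ≤ GQ (S.dl 1 k) A (Q.v k ω) := by
  have h1 := det_gain' (A := (1 : Matrix (Fin M) (Fin M) ℝ)) (B := Jq (S.dl 1 k) A (Q.v k ω))
    ⟨one_symm, fun x hx => by rw [one_dv]; exact Pool.Agent.Helper95.LF.self_pos hx⟩
    ⟨Jq_symm _ hs _, Jq_nonneg _ hA _⟩
    (Jq (S.dl 1 k) A (Q.v k ω) z z) (Pi.single z 1) (by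
      intro h
      have := congrFun h z
      rw [Pi.single_eq_same, Pi.zero_apply] at this
      exact one_ne_zero this) (by
      unfold qf
      rw [one_dv, single_dv, single_dotProduct, one_mul, Pi.single_eq_same, mul_one])
  rw [Matrix.det_one, mul_one] at h1
  exact h1

theorem xz_le_gx (Q : S.VV M) (z : Fin M) (k : ℕ) (ω : (S.F k).Ω) {A : Matrix (Mon M D) (Mon M D) ℝ} (hs : A.IsSymm)
    (hA : ∀ x, 0 ≤ x ⬝ᵥ (A *ᵥ x)) : xz Q z k ω A ≤ gx Q k ω A := by
  have hn := (S.F k).pos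
  have h1 := one_le_Jz Q z k ω hA
  have h2 := Real.logb_le_logb_of_le (b := 2) (by norm_num) (by linarith) (Jz_le_GQ Q z k ω hs hA)
  unfold xz gx
  exact div_le_div_of_nonneg_right h2 (by positivity)

/-! ### admissible forms -/

section adf

variable {κ : Type} {A : κ → Part S} {Q : S.VV M}

/-- the exponents of an admissible form are bounded everywhere -/
theorem xz_bd (z : Fin M) {y : ∀ k, FD (S.F k) (Mon M D)} (hy : (gaq Q D).Adf A y) :
    ∃ C : ℝ, 0 ≤ C ∧ ∀ᶠ k in UF, ∀ ω, (y k).l.T.μ ω ≠ 0 →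
      0 ≤ xz Q z k ((y k).l.p.π ω) ((y k).g ω) ∧ xz Q z k ((y k).l.p.π ω) ((y k).g ω) ≤ C := by
  obtain ⟨C, hC, hb⟩ := gx_bd hy
  refine ⟨C, hC, ?_⟩
  filter_upwards [hb, hy 1 one_pos] with k a b ω hω
  have hc := (b.2.1 ω hω).1
  exact ⟨xz_nonneg Q z k _ fun v => hc.psd.2 v, (xz_le_gx Q z k _ hc.1 fun v => hc.psd.2 v).trans (a ω hω).2⟩

theorem avg_bd {F : FSp} {f : F.Ω → ℝ} {C : ℝ} (h : ∀ ω, F.μ ω ≠ 0 → 0 ≤ f ω ∧ f ω ≤ C) :
    0 ≤ ∑ ω, F.μ ω * f ω ∧ ∑ ω, F.μ ω * f ω ≤ C := by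
  have h0 : ∀ ω, 0 ≤ F.μ ω * f ω ∧ F.μ ω * f ω ≤ F.μ ω * C := by
    intro ω
    by_cases h1 : F.μ ω = 0
    · rw [h1, zero_mul, zero_mul]
      exact ⟨le_rfl, le_rfl⟩
    · obtain ⟨a, b⟩ := h ω h1
      exact ⟨mul_nonneg (F.nn ω) a, mul_le_mul_of_nonneg_left b (F.nn ω)⟩
  refine ⟨Finset.sum_nonneg fun ω _ => (h0 ω).1, ?_⟩
  refine (Finset.sum_le_sum fun ω _ => (h0 ω).2).trans ?_
  rw [← Finset.sum_mul, Pool.Agent.Helper3.PR.sum_mu, one_mul]

theorem zv_bd (z : Fin M) {y : ∀ k, FD (S.F k) (Mon M D)} (hy : (gaq Q D).Adf A y) :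
    ∃ C : ℝ, ∀ᶠ k in UF, 0 ≤ zv Q z y k ∧ zv Q z y k ≤ C := by
  obtain ⟨C, -, hb⟩ := xz_bd z hy
  exact ⟨C, by filter_upwards [hb] with k a using avg_bd a⟩

theorem zv_UB (z : Fin M) {y : ∀ k, FD (S.F k) (Mon M D)} (hy : (gaq Q D).Adf A y) : UB (zv Q z y) := by
  obtain ⟨C, h⟩ := zv_bd z hy
  exact UB_of_nonneg_le (h.mono fun k hk => hk.1) (h.mono fun k hk => hk.2)

theorem zx_nonneg (z : Fin M) {y : ∀ k, FD (S.F k) (Mon M D)} (hy : (gaq Q D).Adf A y) : 0 ≤ zx Q z y := by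
  obtain ⟨C, h⟩ := zv_bd z hy
  have h1 := ul_mono (UB_const 0) (zv_UB z hy) (by filter_upwards [h] with k hk using hk.1)
  rw [ul_const] at h1
  exact h1

/-- the mean exponent is below the codimension of the hull -/
theorem zx_le_vx (z : Fin M) {y : ∀ k, FD (S.F k) (Mon M D)} (hy : (gaq Q D).Adf A y) :
    zx Q z y ≤ M - vol Q D y := by
  rw [vol_eq, sub_sub_cancel]
  apply ul_mono (zv_UB z hy) (vx_UB hy)
  filter_upwards [hy 1 one_pos] with k b
  refine Finset.sum_le_sum fun ω _ => ?_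
  by_cases h1 : (y k).l.T.μ ω = 0
  · rw [h1, zero_mul, zero_mul]
  · have hc := (b.2.1 ω h1).1
    exact mul_le_mul_of_nonneg_left (xz_le_gx Q z k _ hc.1 fun v => hc.psd.2 v) ((y k).l.T.nn ω)

/-- the mean exponent is at most one -/
theorem zx_le_one (z : Fin M) {y : ∀ k, FD (S.F k) (Mon M D)} (hy : (gaq Q D).Adf A y) : zx Q z y ≤ 1 := by
  obtain ⟨C, -, hb⟩ := xz_bd z hy
  have hcM : (0 : ℝ) ≤ M * nn M D * Cm M D ^ 2 := by
    have h1 := nn_one M D
    have h2 := Cm_one M D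
    positivity
  apply le_of_forall_pos_le_add
  intro η hη
  have e1 : (fun k => ∑ ω, (y k).l.T.μ ω * (1 + η)) = fun _ => 1 + η := by
    funext k
    rw [← Finset.sum_mul, Pool.Agent.Helper3.PR.sum_mu, one_mul]
  have hη2 : 0 < η / 2 := by linarith
  have hs := (S.Sub_const (show (0 : ℝ) ≤ 1 + M * nn M D * Cm M D ^ 2 by linarith)).eventually_le hη2
  have hT : Tendsto (fun k => (y k).l.T.pb (fun ω => ¬ (gaq Q D).φ k ((y k).l.p.π ω) ((y k).g ω) ≤
      2 ^ (η / 2 * (S.F k).n))) UF (𝓝 0) := by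
    rw [Metric.tendsto_nhds]
    intro ε hε
    have hm : 0 < min (ε / 2) (η / 2) := lt_min (by linarith) hη2
    filter_upwards [hy _ hm] with k a
    have hn := (S.F k).pos
    rw [Real.dist_eq, sub_zero, abs_of_nonneg ((y k).l.T.pb_nonneg _)]
    have h1 : (y k).l.T.pb (fun ω => ¬ (gaq Q D).φ k ((y k).l.p.π ω) ((y k).g ω) ≤ 2 ^ (η / 2 * (S.F k).n)) ≤
        min (ε / 2) (η / 2) := by
      refine le_trans (FSp.pb_mono _ ?_) a.2.2.1
      intro ω _ h2 h3
      apply h2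
      refine h3.trans (Real.rpow_le_rpow_of_exponent_le (by norm_num) ?_)
      exact mul_le_mul_of_nonneg_right (min_le_right _ _) hn.le
    have h2 : min (ε / 2) (η / 2) ≤ ε / 2 := min_le_left _ _
    linarith
  have key := ul_avg_le (fun k => (y k).l.T) (fun k _ => 1 + η)
    (fun k ω => xz Q z k ((y k).l.p.π ω) ((y k).g ω))
    (fun k ω => (gaq Q D).φ k ((y k).l.p.π ω) ((y k).g ω) ≤ 2 ^ (η / 2 * (S.F k).n)) (fun _ => 0)
    tendsto_const_nhds C hT (by
      filter_upwards [hs, hy 1 one_pos] with k a b ω hω hE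
      have hn := (S.F k).pos
      have hc := (b.2.1 ω hω).1
      have h1 := Jz_le Q z k ((y k).l.p.π ω) hc.pdM
      have h2 : phi (S.dl 1 k) ((y k).g ω) (Q.v k ((y k).l.p.π ω)) ≤ 2 ^ (η / 2 * (S.F k).n) := hE
      have h3 : (2 : ℝ) ^ (2 * (S.F k).n) * phi (S.dl 1 k) ((y k).g ω) (Q.v k ((y k).l.p.π ω)) ≤
          2 ^ ((2 + η / 2) * (S.F k).n) := by
        refine (mul_le_mul_of_nonneg_left h2 (by positivity)).trans (le_of_eq ?_)
        rw [← Real.rpow_add (by norm_num)]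
        congr 1
        ring
      have h4 : (1 : ℝ) ≤ 2 ^ ((2 + η / 2) * (S.F k).n) := Real.one_le_rpow (by norm_num) (by positivity)
      have h5 : Jz Q z k ((y k).l.p.π ω) ((y k).g ω) ≤ 2 ^ ((2 + η) * (S.F k).n) := by
        refine h1.trans ?_
        calc 1 + M * nn M D * Cm M D ^ 2 * (2 ^ (2 * (S.F k).n) * phi (S.dl 1 k) ((y k).g ω) (Q.v k ((y k).l.p.π ω)))
            ≤ 2 ^ ((2 + η / 2) * (S.F k).n) + M * nn M D * Cm M D ^ 2 * 2 ^ ((2 + η / 2) * (S.F k).n) :=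
              add_le_add h4 (mul_le_mul_of_nonneg_left h3 hcM)
          _ = (1 + M * nn M D * Cm M D ^ 2) * 2 ^ ((2 + η / 2) * (S.F k).n) := by ring
          _ ≤ 2 ^ (η / 2 * (S.F k).n) * 2 ^ ((2 + η / 2) * (S.F k).n) := by
              apply mul_le_mul_of_nonneg_right _ (by positivity)
              linarith
          _ = _ := by
              rw [← Real.rpow_add (by norm_num)]
              congr 1
              ring
      have h6 := one_le_Jz Q z k ((y k).l.p.π ω) (fun v => hc.psd.2 v)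
      have h7 := Real.logb_le_logb_of_le (b := 2) (by norm_num) (by linarith) h5
      rw [Real.logb_rpow (by norm_num) (by norm_num)] at h7
      unfold xz
      rw [add_zero, div_le_iff₀ (by positivity)]
      nlinarith) (by filter_upwards [hb] with k a ω hω using (a ω hω).2)
    (Eventually.of_forall fun k ω _ => by positivity) (zv_UB z hy) (by
      rw [e1]
      exact UB_const _)
  rw [e1, ul_const] at key
  exact key

theorem Jz_dom (Q : S.VV M) (z : Fin M) (k : ℕ) (ω : (S.F k).Ω) {A B : Matrix (Mon M D) (Mon M D) ℝ} {c : ℝ}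
    (hc : 1 ≤ c) (h : ∀ v, qf B v ≤ c * qf A v) : Jz Q z k ω B ≤ c * Jz Q z k ω A := by
  have h1 : (Pi.single z 1 : Fin M → ℝ) ⬝ᵥ (Jq (S.dl 1 k) B (Q.v k ω) *ᵥ Pi.single z 1) ≤
      c * ((Pi.single z 1 : Fin M → ℝ) ⬝ᵥ (Jq (S.dl 1 k) A (Q.v k ω) *ᵥ Pi.single z 1)) := by
    rw [Jq_qf, Jq_qf, Finset.mul_sum]
    exact Finset.sum_le_sum fun j _ => h _
  rw [single_dv, single_dv] at h1
  unfold Jz
  rw [mul_add, mul_one]
  exact add_le_add hc h1

/-- THE OPTIMAL FORM HAS THE LARGEST EXPONENT -/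
theorem zx_opt {x y : ∀ k, FD (S.F k) (Mon M D)} (hx : (gaq Q D).Optf A x) (hy : (gaq Q D).Adf A y) (z : Fin M) :
    zx Q z y ≤ zx Q z x := by
  classical
  obtain ⟨C, hC, hb⟩ := xz_bd z hy
  obtain ⟨C', -, hb'⟩ := xz_bd z hx.1
  have hUx := zv_UB z hx.1
  have hUy := zv_UB z hy
  apply le_of_forall_pos_le_add
  intro e he
  have e1 : (fun k => ∑ w, ((x k).jj (y k)).l.T.μ w *
      xz Q z k ((y k).l.p.π (((x k).l.am (y k).l).p2.π w)) ((y k).g (((x k).l.am (y k).l).p2.π w))) = zv Q z y := by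
    funext k
    exact sum_push ((x k).l.am (y k).l).p2 (fun ω => xz Q z k ((y k).l.p.π ω) ((y k).g ω))
  have e2 : (fun k => ∑ w, ((x k).jj (y k)).l.T.μ w *
      (xz Q z k ((x k).l.p.π (((x k).l.am (y k).l).p1.π w)) ((x k).g (((x k).l.am (y k).l).p1.π w)) + e)) =
      fun k => zv Q z x k + e := by
    funext k
    have e3 := sum_push ((x k).l.am (y k).l).p1 (fun ω => xz Q z k ((x k).l.p.π ω) ((x k).g ω))
    rw [Finset.sum_congr rfl fun w _ => mul_add _ _ _, Finset.sum_add_distrib, ← Finset.sum_mul,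
      Pool.Agent.Helper3.PR.sum_mu, one_mul]
    congr 1
  have key := ul_avg_le (fun k => ((x k).jj (y k)).l.T)
    (fun k w => xz Q z k ((x k).l.p.π (((x k).l.am (y k).l).p1.π w)) ((x k).g (((x k).l.am (y k).l).p1.π w)) + e)
    (fun k w => xz Q z k ((y k).l.p.π (((x k).l.am (y k).l).p2.π w)) ((y k).g (((x k).l.am (y k).l).p2.π w)))
    (fun k w => ∀ v, qf (((x k).jj (y k)).g' w) v ≤ 2 ^ (e * (S.F k).n) * qf (((x k).jj (y k)).g w) v)
    (fun _ => 0) tendsto_const_nhds C (Gau.Optf.dom (gaq Q D) hx hy e he) (by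
      filter_upwards [hx.1 1 one_pos, hy 1 one_pos] with k b3 b4 w hw hE
      have hn := (S.F k).pos
      have s1 := ((x k).l.am (y k).l).p1.supp w hw
      have s2 := ((x k).l.am (y k).l).p2.supp w hw
      have s3 := (x k).jj_supp (y k) w hw
      have c1 := (b3.2.1 _ s1).1
      have c2 := (b4.2.1 _ s2).1
      rw [← s3]
      set p := (x k).l.p.π (((x k).l.am (y k).l).p1.π w) with hp
      set g1 := (x k).g (((x k).l.am (y k).l).p1.π w) with hg1
      set g2 := (y k).g (((x k).l.am (y k).l).p2.π w) with hg2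
      have h1 : Jz Q z k p g2 ≤ 2 ^ (e * (S.F k).n) * Jz Q z k p g1 :=
        Jz_dom Q z k p (Real.one_le_rpow (by norm_num) (by positivity)) hE
      have h2 := one_le_Jz Q z k p (fun v => c1.psd.2 v)
      have h3 := one_le_Jz Q z k p (fun v => c2.psd.2 v)
      have h4 := Real.logb_le_logb_of_le (b := 2) (by norm_num) (by linarith) h1
      rw [Real.logb_mul (by positivity) (by linarith), Real.logb_rpow (by norm_num) (by norm_num)] at h4
      show Real.logb 2 (Jz Q z k p g2) / (2 * (S.F k).n) ≤ Real.logb 2 (Jz Q z k p g1) / (2 * (S.F k).n) + e + 0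
      rw [add_zero, ← sub_le_iff_le_add', ← sub_div, div_le_iff₀ (by positivity)]
      nlinarith) (by
      filter_upwards [hb] with k a w hw
      exact (a _ (((x k).l.am (y k).l).p2.supp w hw)).2) (by
      filter_upwards [hb'] with k a w hw
      have := (a _ (((x k).l.am (y k).l).p1.supp w hw)).1
      linarith) (by rw [e1]; exact hUy) (by rw [e2]; exact hUx.add (UB_const e))
  rw [e1, e2, ul_add hUx (UB_const e), ul_const] at key
  exact key

theorem zx_opt_eq {x y : ∀ k, FD (S.F k) (Mon M D)} (hx : (gaq Q D).Optf A x) (hy : (gaq Q D).Optf A y) (z : Fin M) :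
    zx Q z x = zx Q z y := le_antisymm (zx_opt hy hx.1 z) (zx_opt hx hy.1 z)

end adf

end

end Pool.Agent.Helper89.RAT
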