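import Pool.Agent.Helper89.RAT.Exp
import Pool.Agent.Helper26.MT.Zc

/-! THE BOUND OF THE VOLUME BY THE PROJECTION AND THE GRADIENT at a window `c`: from the window `0` of the zoom. -/

set_option autoImplicit false

namespace Pool.Agent.Helper89.RAT

open Finset Filter Topology Matrix Pool.Agent.Helper69.RK Pool.Agent.Helper31.EC Pool.Agent.Helper31.EC.Sp
open Pool.Agent.Helper40.EL Pool.Agent.Helper89.LX Pool.Agent.Helper3.LF Pool.Agent.Helper84.MT Pool.Agent.Helper26.MZ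
open Pool.Agent.Helper95.LF (PdM)
open Pool.Agent.Helper3.ZM (aff MM afm afm_symm afm_nonneg phi_afm)
open Pool.Agent.Helper14.MC (gx vx vol_eq vx_UB vx_nonneg vol_opt_le vol_opt_eq)

noncomputable section

variable {S : Sp} {M D : ℕ} {E : ℕ → ℕ} {ι : Type} {s : MSys S M E ι} (Z : ZM s)

theorem num_div {a b c n : ℝ} (hn : 0 < n) (h : 2 * -(c * n) + a ≤ b) : a / (2 * n) ≤ b / (2 * n) + c := by
  rw [div_le_iff₀ (by positivity)]
  have : (b / (2 * n) + c) * (2 * n) = b + c * (2 * n) := by field_simp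
  linarith

/-- the gradients of the form of the zoom -/
theorem Jz_inn (x : ∀ k, FD (S.F k) (Mon M D)) (z : Fin M) (k : ℕ) (ω : ((Z.l k).am (x k).l).sp.Ω)
    (hω : ((Z.l k).am (x k).l).sp.μ ω ≠ 0) :
    (S.dl Z.c k) ^ 2 * Jz s.Q z k ((x k).l.p.π (((Z.l k).am (x k).l).p2.π ω)) ((x k).g (((Z.l k).am (x k).l).p2.π ω)) ≤
      Jz Z.sys.Q z k (((Z.l k).am (x k).l).p1.π ω) (Z.ifm x k ω) := by
  have hd := S.dl_pos Z.c k
  have hd1 := Z.dl_c_le k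
  have h5 : aff (Z.o0 k ((Z.l k).p.π (((Z.l k).am (x k).l).p1.π ω))) (S.dl Z.c k)
      (Z.sys.Q.v k (((Z.l k).am (x k).l).p1.π ω)) = s.Q.v k ((x k).l.p.π (((Z.l k).am (x k).l).p2.π ω)) := by
    rw [← Z.ov_sup x k ω hω]
    exact (Z.aff_fr k _).symm
  have h1 := Jq_mono (Z.sp.dl 1 k) (afm_le_one_afm (Z.o0 k ((Z.l k).p.π (((Z.l k).am (x k).l).p1.π ω)))
    (S.dl Z.c k) ((x k).g (((Z.l k).am (x k).l).p2.π ω))) (Z.sys.Q.v k (((Z.l k).am (x k).l).p1.π ω)) (Pi.single z 1)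
  rw [single_dv, single_dv, Jq_afm, h5, Z.dl_eq', Matrix.smul_apply, smul_eq_mul] at h1
  have h2 : (S.dl Z.c k) ^ 2 ≤ 1 := pow_le_one₀ hd.le hd1
  show (S.dl Z.c k) ^ 2 * (1 + Jq (S.dl 1 k) ((x k).g (((Z.l k).am (x k).l).p2.π ω))
    (s.Q.v k ((x k).l.p.π (((Z.l k).am (x k).l).p2.π ω))) z z) ≤
    1 + Jq (Z.sp.dl 1 k) (1 + afm (Z.o0 k ((Z.l k).p.π (((Z.l k).am (x k).l).p1.π ω)))
    (S.dl Z.c k) ((x k).g (((Z.l k).am (x k).l).p2.π ω))) (Z.sys.Q.v k (((Z.l k).am (x k).l).p1.π ω)) z z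
  rw [mul_add, mul_one]
  exact add_le_add h2 h1

/-- comparison of the exponents -/
theorem xz_inn (x : ∀ k, FD (S.F k) (Mon M D)) (z : Fin M) (k : ℕ) (ω : ((Z.l k).am (x k).l).sp.Ω)
    (hω : ((Z.l k).am (x k).l).sp.μ ω ≠ 0) {c : ℝ} (hc : Cpd c ((x k).g (((Z.l k).am (x k).l).p2.π ω))) :
    xz s.Q z k ((x k).l.p.π (((Z.l k).am (x k).l).p2.π ω)) ((x k).g (((Z.l k).am (x k).l).p2.π ω)) ≤
      Z.e * xz Z.sys.Q z k (((Z.l k).am (x k).l).p1.π ω) (Z.ifm x k ω) + Z.c := by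
  have hn := (S.F k).pos
  have he := Z.e_pos
  have hd := S.dl_pos Z.c k
  have hB : PdM (Z.ifm x k ω) := one_afm_pd _ _ hc.1 fun v => hc.psd.2 v
  have h1 := Jz_inn Z x z k ω hω
  have a1 := one_le_Jz s.Q z k ((x k).l.p.π (((Z.l k).am (x k).l).p2.π ω)) (fun v => hc.psd.2 v)
  have a2 := one_le_Jz Z.sys.Q z k (((Z.l k).am (x k).l).p1.π ω) hB.nonneg
  have a4 := Real.logb_le_logb_of_le (b := 2) (by norm_num) (by positivity) h1
  rw [Real.logb_mul (by positivity) (by linarith), Real.logb_pow, Z.log_dl] at a4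
  unfold xz
  rw [Z.sp_n]
  have e1 : Z.e * (Real.logb 2 (Jz Z.sys.Q z k (((Z.l k).am (x k).l).p1.π ω) (Z.ifm x k ω)) /
      (2 * (Z.e * (S.F k).n))) =
      Real.logb 2 (Jz Z.sys.Q z k (((Z.l k).am (x k).l).p1.π ω) (Z.ifm x k ω)) / (2 * (S.F k).n) := by
    field_simp
  rw [e1]
  push_cast at a4
  exact num_div hn a4

/-- the mean exponents of the zoom and of the system -/
theorem zx_inn [Finite ι] {b : ℝ} (hb : 0 ≤ b) {x : ∀ k, FD (S.F k) (Mon M D)} (z : Fin M)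
    (hx : (gaq s.Q D).Adf (s.cnd (Z.c + Z.e * b)) x) : zx s.Q z x ≤ Z.e * zx Z.sys.Q z (Z.inn x) + Z.c := by
  have hy := Z.inn_ad hb hx
  obtain ⟨C, hC, hbd⟩ := xz_bd z hx
  obtain ⟨C', -, hbd'⟩ := xz_bd z hy
  have hUx := zv_UB z hx
  have hUy := zv_UB z hy
  have e1 : (fun k => ∑ ω, ((Z.l k).am (x k).l).sp.μ ω * xz s.Q z k ((x k).l.p.π (((Z.l k).am (x k).l).p2.π ω))
      ((x k).g (((Z.l k).am (x k).l).p2.π ω))) = zv s.Q z x := by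
    funext k
    exact sum_push ((Z.l k).am (x k).l).p2 (fun ω => xz s.Q z k ((x k).l.p.π ω) ((x k).g ω))
  have e2 : (fun k => ∑ ω, ((Z.l k).am (x k).l).sp.μ ω * (Z.e * xz Z.sys.Q z k (((Z.l k).am (x k).l).p1.π ω)
      ((Z.inn x k).g ω) + Z.c)) = fun k => Z.e * zv Z.sys.Q z (Z.inn x) k + Z.c := by
    funext k
    have e4 : ∀ ω, ((Z.l k).am (x k).l).sp.μ ω * (Z.e * xz Z.sys.Q z k (((Z.l k).am (x k).l).p1.π ω)
        ((Z.inn x k).g ω) + Z.c) = Z.e * (((Z.l k).am (x k).l).sp.μ ω *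
        xz Z.sys.Q z k (((Z.l k).am (x k).l).p1.π ω) ((Z.inn x k).g ω)) + ((Z.l k).am (x k).l).sp.μ ω * Z.c :=
      fun ω => by ring
    rw [Finset.sum_congr rfl fun ω _ => e4 ω, Finset.sum_add_distrib, ← Finset.sum_mul, ← Finset.mul_sum,
      Pool.Agent.Helper3.PR.sum_mu, one_mul]
    rfl
  have key := ul_avg_le (fun k => ((Z.l k).am (x k).l).sp)
    (fun k ω => Z.e * xz Z.sys.Q z k (((Z.l k).am (x k).l).p1.π ω) ((Z.inn x k).g ω) + Z.c)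
    (fun k ω => xz s.Q z k ((x k).l.p.π (((Z.l k).am (x k).l).p2.π ω)) ((x k).g (((Z.l k).am (x k).l).p2.π ω)))
    (fun k ω => Cpd ((gaq Z.sys.Q D).cp k) (Z.ifm x k ω)) (fun _ => 0) tendsto_const_nhds C
    (Z.inn_typ hx) (by
      filter_upwards [hx 1 one_pos] with k h2 ω hω hE
      have a0 := Z.inn_g k ω hE
      have a1 := xz_inn Z x z k ω hω (h2.2.1 _ (((Z.l k).am (x k).l).p2.supp ω hω)).1
      rw [a0]
      linarith) (by
      filter_upwards [hbd] with k h2 ω hω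
      exact (h2 _ (((Z.l k).am (x k).l).p2.supp ω hω)).2) (by
      filter_upwards [hbd'] with k h2 ω hω
      have h3 := (h2 ω hω).1
      have h4 := mul_nonneg Z.e_pos.le h3
      exact add_nonneg h4 Z.h0) (by rw [e1]; exact hUx) (by rw [e2]; exact (hUy.const_mul Z.e).add (UB_const _))
  rw [e1, e2, ul_add (hUy.const_mul Z.e) (UB_const _), ul_const_mul _ hUy, ul_const] at key
  exact key

/-- the bound at the window `0` (helper41, row VOLC) -/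
def IdP (d : ℕ) : Prop := ∀ (g r D : ℕ), 1 ≤ D → STm D d (lin g) (Fin r) → ∀ (S : Sp)
  (s : MSys S (d + 1) (lin g) (Fin r)), s.Con 0 → ∀ x : ∀ k, FD (S.F k) (Mon (d + 1) D),
    (gaq s.Q D).Optf (s.cnd 0) x → ∀ (j : Fin (d + 1)) (P : S.VV d),
      (∀ k ω a, P.v k ω a = s.Q.v k ω (j.succAbove a)) → vol s.Q D x ≤ 1 - zx s.Q j x + H (P.dg 1)

/-- THE BOUND AT EVERY WINDOW -/
theorem IdP.win {d : ℕ} (hid : IdP d) {g r D : ℕ} (hD : 1 ≤ D) (hst : STm D d (lin g) (Fin r)) {S : Sp}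
    (s : MSys S (d + 1) (lin g) (Fin r)) {c : ℝ} (h0 : 0 ≤ c) (h1 : c < 1)
    {x : ∀ k, FD (S.F k) (Mon (d + 1) D)} (hx : s.IsCan D c x) (j : Fin (d + 1)) (P : S.VV d)
    (hP : ∀ k ω a, P.v k ω a = s.Q.v k ω (j.succAbove a)) :
    vol s.Q D x ≤ 1 - zx s.Q j x + H (up1 (lb x) (P.dg 1)) := by
  set Z : ZM s := s.mkz h0 h1 hx.2.1 with hZ
  have hk : s.IsKap c Z.l := s.mkz_kap h0 h1 hx.2
  have hc : Z.c = c := rfl
  have hx' : s.IsCan D (Z.c + Z.e * 0) x := by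
    rw [mul_zero, add_zero]
    exact hx
  have hy := Z.can_inn le_rfl hx'
  have hv := Z.vol_can hD le_rfl hy hx'
  have hz := zx_inn Z le_rfl j hx'.1.1
  have hcell : ∀ k ω ω', (Z.l k).T.μ ω ≠ 0 → (Z.l k).T.μ ω' ≠ 0 → (Z.l k).V ω ω' → (Z.l k).T.Z ω ω' →
      P.cellv Z.c k ((Z.l k).p.π ω) = P.cellv Z.c k ((Z.l k).p.π ω') := by
    intro k ω ω' a b c d
    have h2 := Z.cell k ω ω' a b c d
    funext i
    have h3 := congrFun h2 (j.succAbove i)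
    show ⌊P.v k ((Z.l k).p.π ω) i / S.dl Z.c k⌋ = ⌊P.v k ((Z.l k).p.π ω') i / S.dl Z.c k⌋
    rw [hP, hP]
    exact h3
  have h2 := hid g r D hD hst Z.sp Z.sys (Z.Con_zero hk) (Z.inn x) hy.1 j (Z.fr P) (by
    intro k ω a
    show P.v k ((Z.l k).p.π ω) a / S.dl Z.c k - ⌊P.v k ((Z.l k).p.π ω) a / S.dl Z.c k⌋ =
      s.Q.v k ((Z.l k).p.π ω) (j.succAbove a) / S.dl Z.c k -
        ⌊s.Q.v k ((Z.l k).p.π ω) (j.succAbove a) / S.dl Z.c k⌋
    rw [hP])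
  have h3 : H ((Z.fr P).dg 1) = H (up1 (lb x) (P.dg 1)) / Z.e := by
    rw [Z.fr_dg P hcell, mul_one, Z.c_add_e]
    have h4 : H (Z.U (P.dg 1)) = H (up1 Z.l (P.dg 1)) / Z.e := by
      have h5 := Z.l.H_upL Z.e Z.e_pos (P.dg 1)
      have h6 := Z.l.H_upL 1 one_pos (P.dg 1)
      rw [div_one] at h6
      have h7 : H (Z.U (P.dg 1)) = H (Z.l.upL Z.e Z.e_pos (P.dg 1)) := rfl
      have h8 : H (up1 Z.l (P.dg 1)) = H (Z.l.upL 1 one_pos (P.dg 1)) := rfl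
      rw [h7, h8, h5, h6]
    rw [h4, MSys.IsKap.H_eq hk hx.2]
    rfl
  rw [h3] at h2
  have he := Z.e_pos
  have h9 : Z.e * vol Z.sys.Q D (Z.inn x) ≤ Z.e * (1 - zx Z.sys.Q j (Z.inn x) + H (up1 (lb x) (P.dg 1)) / Z.e) :=
    mul_le_mul_of_nonneg_left h2 he.le
  have h10 : Z.e * (1 - zx Z.sys.Q j (Z.inn x) + H (up1 (lb x) (P.dg 1)) / Z.e) =
      Z.e - Z.e * zx Z.sys.Q j (Z.inn x) + H (up1 (lb x) (P.dg 1)) := by
    field_simp
  rw [hv]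
  have h11 := Z.c_add_e
  linarith

end

end Pool.Agent.Helper89.RAT
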