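import Pool.Agent.Helper89.RAT.Eta
import Pool.Agent.Helper4.VZ.Top
import Pool.Agent.Helper91.RAT.Gn
import Pool.Agent.Helper75.MX.Der

/-! THE NUMBERS OF ONE SYSTEM: the family `Fam` of helper75 from a system with trivial hull, and its typical levels if the
system is not full. -/

set_option autoImplicit false

namespace Pool.Agent.Helper89.RAT

open Finset Filter Topology Matrix Pool.Agent.Helper69.RK Pool.Agent.Helper31.EC Pool.Agent.Helper31.EC.Sp
open Pool.Agent.Helper40.EL Pool.Agent.Helper89.LX Pool.Agent.Helper3.LF Pool.Agent.Helper84.MT Pool.Agent.Helper26.MZ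
open Pool.Agent.Helper95.LF (PdM)
open Pool.Agent.Helper91.RAT (gcr gcr_eq gcr_zero fam_of H_right vol_right)
open Pool.Agent.Helper75.MX (Fam gm crit Good)

noncomputable section

variable {S : Sp} {d D : ℕ} {E : ℕ → ℕ} {ι : Type}

/-- the bound of the volume from below (helper4) -/
theorem pdt_of [Finite ι] (s : MSys S (d + 1) E ι) (hD : 1 ≤ D) (j : Fin (d + 1)) (P : S.VV d)
    (hP : ∀ k ω a, P.v k ω a = s.Q.v k ω (j.succAbove a)) : Pdt s D j P where
  hP := hP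
  vz := by
    intro c x hx
    have h1 := Pool.Agent.Helper4.VZ.volz_P hD hx.1 j P j.succAbove (fun a => Fin.succAbove_ne j a) hP
    have h2 : ul (fun k => ∑ ω, (x k).l.T.μ ω * Pool.Agent.Helper4.VZ.zx s.Q x j k ω) = zx s.Q j x := rfl
    rw [h2] at h1
    linarith

/-- the level is right continuous -/
theorem eta_right [Finite ι] (s : MSys S (d + 1) E ι) (D : ℕ) (P : S.VV d) (c : ℝ) :
    ContinuousWithinAt (eta s D P) (Set.Ici c) c := by
  rw [Metric.continuousWithinAt_iff]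
  intro ε hε
  have hε2 : 0 < ε / 2 := by linarith
  obtain ⟨δ, hδ, h⟩ := vol_right s D c hε2
  obtain ⟨δ', hδ', h'⟩ := H_right s c hε2
  refine ⟨min δ δ', lt_min hδ hδ', fun {c'} hc hd => ?_⟩
  have hc0 : c ≤ c' := hc
  rw [Real.dist_eq, abs_of_nonneg (sub_nonneg.mpr hc0)] at hd
  obtain ⟨a1, a2⟩ := h c' hc0 (by linarith [min_le_left δ δ'])
  obtain ⟨b1, b2⟩ := h' c' hc0 (by linarith [min_le_right δ δ']) _ _ (s.kap_isKap c) (s.kap_isKap c') (P.dg 1)
  unfold eta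
  rw [Real.dist_eq, abs_lt]
  constructor <;> linarith

section lin

variable {g r : ℕ} {s : MSys S (d + 1) (lin g) (Fin r)} {j : Fin (d + 1)} {P : S.VV d}

/-- THE FAMILY OF THE NUMBERS -/
theorem fam_sys (hD : 1 ≤ D) (hst : STm D d (lin g) (Fin r)) (hv : (d + 1 : ℝ) ≤ s.vol D 0)
    (hP : ∀ k ω a, P.v k ω a = s.Q.v k ω (j.succAbove a)) (y : S.VV 1) :
    Fam (eta s D P) (gcr s y (P.dg 1)) 1 := by
  have h := pdt_of s hD j P hP
  exact fam_of s y (P.dg 1) one_pos (h.eta_mono hD hst) (h.eta_zero hD hst hv) (h.eta_one hD)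
    (fun c _ => eta_right s D P c)

end lin

/-- all digits of the point are the digits of the coordinate and of the others -/
theorem Q_dg_eq {s : MSys S (d + 1) E ι} {j : Fin (d + 1)} {P : S.VV d}
    (hP : ∀ k ω a, P.v k ω a = s.Q.v k ω (j.succAbove a)) {y : S.VV 1} (hy : ∀ k ω i, y.v k ω i = s.Q.v k ω j)
    (r : ℝ) : s.Q.dg r = P.dg r ⊔ y.dg r := by
  apply le_antisymm
  · rw [TR.vv_dg_le_iff]
    intro i
    have h1 : i = j ∨ ∃ a, j.succAbove a = i := by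
      rcases eq_or_ne i j with h | h
      · exact Or.inl h
      · exact Or.inr (Fin.exists_succAbove_eq h)
    rcases h1 with rfl | ⟨a, rfl⟩
    · refine le_trans ?_ le_sup_right
      apply VV.dg_le_dg _ y r r (fun _ _ => True) Typ_true (fun _ => 1) (S.Sub_const zero_le_one)
      refine Eventually.of_forall fun k ω ω' _ _ _ _ _ hd b => ?_
      rw [one_mul]
      have h2 := hd 0
      rw [hy, hy] at h2
      exact h2
    · refine le_trans ?_ le_sup_left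
      apply VV.dg_le_dg _ P r r (fun _ _ => True) Typ_true (fun _ => 1) (S.Sub_const zero_le_one)
      refine Eventually.of_forall fun k ω ω' _ _ _ _ _ hd b => ?_
      rw [one_mul]
      have h2 := hd a
      rw [hP, hP] at h2
      exact h2
  · apply sup_le
    · apply VV.dg_le_dg P s.Q r r (fun _ _ => True) Typ_true (fun _ => 1) (S.Sub_const zero_le_one)
      refine Eventually.of_forall fun k ω ω' _ _ _ _ _ hd i => ?_
      rw [hP, hP, one_mul]
      exact hd _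
    · apply VV.dg_le_dg y s.Q r r (fun _ _ => True) Typ_true (fun _ => 1) (S.Sub_const zero_le_one)
      refine Eventually.of_forall fun k ω ω' _ _ _ _ _ hd i => ?_
      rw [hy, hy, one_mul]
      exact hd _

/-- the entropy of the point over a label -/
theorem H_Q_eq (l : Lab S) {s : MSys S (d + 1) E ι} {j : Fin (d + 1)} {P : S.VV d}
    (hP : ∀ k ω a, P.v k ω a = s.Q.v k ω (j.succAbove a)) {y : S.VV 1} (hy : ∀ k ω i, y.v k ω i = s.Q.v k ω j) :
    H (up1 l (s.Q.dg 1)) = H (up1 l (P.dg 1)) + h (up1 l (y.dg 1)) (up1 l (P.dg 1)) := by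
  rw [Q_dg_eq hP hy 1, up1_sup]
  have h1 : h (up1 l (y.dg 1)) (up1 l (P.dg 1)) = H (up1 l (y.dg 1) ⊔ up1 l (P.dg 1)) - H (up1 l (P.dg 1)) := rfl
  rw [h1, sup_comm]
  ring

section lin

variable {g r : ℕ} {s : MSys S (d + 1) (lin g) (Fin r)} {j : Fin (d + 1)} {P : S.VV d}

/-- THE POINT OVER `kappa_c`: the deficit of the coordinate -/
theorem gap_eq (hP : ∀ k ω a, P.v k ω a = s.Q.v k ω (j.succAbove a)) {y : S.VV 1}
    (hy : ∀ k ω i, y.v k ω i = s.Q.v k ω j) {c : ℝ} {x : ∀ k, FD (S.F k) (Mon (d + 1) D)} (hx : s.IsCan D c x) :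
    vol s.Q D x - H (up1 (lb x) (s.Q.dg 1)) = 1 - eta s D P c - gcr s y (P.dg 1) c 1 := by
  have h1 : h (up1 (lb x) (y.dg 1)) (up1 (lb x) (P.dg 1)) = gcr s y (P.dg 1) c 1 := gcr_eq s y (P.dg 1) 1 hx.2
  rw [H_Q_eq (lb x) hP hy, eta_can hx, h1]
  ring

/-- the other coordinates are full at the window `0` of a system with trivial hull -/
theorem H_P_zero (hD : 1 ≤ D) (hst : STm D d (lin g) (Fin r)) (hv : (d + 1 : ℝ) ≤ s.vol D 0)
    (hP : ∀ k ω a, P.v k ω a = s.Q.v k ω (j.succAbove a)) {x : ∀ k, FD (S.F k) (Mon (d + 1) D)}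
    (hx : s.IsCan D 0 x) : H (up1 (lb x) (P.dg 1)) = d := by
  have h1 := (pdt_of s hD j P hP).eta_zero hD hst hv
  have h2 := s.vol_le_M D 0
  push_cast at h2
  rw [eta_can hx, s.vol_eq hx.1] at h1
  linarith

/-- **THE TYPICAL LEVELS OF A SYSTEM WHICH IS NOT FULL**: `helper75`'s `Fam.typical` for the numbers of the system -/
theorem typ_level (hD : 1 ≤ D) (hst : STm D d (lin g) (Fin r)) (hv : (d + 1 : ℝ) ≤ s.vol D 0)
    (hP : ∀ k ω a, P.v k ω a = s.Q.v k ω (j.succAbove a)) {y : S.VV 1} (hy : ∀ k ω i, y.v k ω i = s.Q.v k ω j)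
    {x : ∀ k, FD (S.F k) (Mon (d + 1) D)} (hx : s.IsCan D 0 x) {θ : ℝ}
    (hθ : H (up1 (lb x) (s.Q.dg 1)) < d + θ) (hθ1 : θ ≤ 1) {κ : Type*} [Countable κ] {L : κ → ℝ → ℝ}
    (hL : ∀ i, MonotoneOn (L i) (Set.Icc 0 1)) {Qp : ℝ → Prop} (hQ : ∀ᵐ r, r ∈ Set.Ioo (0 : ℝ) 1 → Qp r) :
    ∃ r ∈ Set.Ioo (0 : ℝ) 1, Good (eta s D P) (gcr s y (P.dg 1)) 1 r ∧ Qp r ∧
      (∀ x ∈ Set.Icc (0 : ℝ) r, ∫ t in x..r, gm (eta s D P) (gcr s y (P.dg 1)) 1 t ≤ θ * (r - x)) ∧
      gm (eta s D P) (gcr s y (P.dg 1)) 1 r ≤ θ ∧ (∃ k, 0 ≤ k ∧ HasDerivAt (crit (eta s D P) 1) k r) ∧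
      (∀ i, ∃ y, 0 ≤ y ∧ HasDerivAt (fun x => L i (crit (eta s D P) 1 x)) y r) ∧
      ((∀ᶠ x in 𝓝 r, crit (eta s D P) 1 x = crit (eta s D P) 1 r) ∨
        ((∀ x ∈ Set.Ioo (0 : ℝ) r, crit (eta s D P) 1 x < crit (eta s D P) 1 r) ∧
          ∀ x ∈ Set.Ioo r 1, crit (eta s D P) 1 r < crit (eta s D P) 1 x)) := by
  refine (fam_sys hD hst hv hP y).typical ?_ hθ1 hL hQ
  rw [gcr_zero, sub_zero]
  have h1 : h (up1 (lb x) (y.dg 1)) (up1 (lb x) (P.dg 1)) = gcr s y (P.dg 1) 0 1 := gcr_eq s y (P.dg 1) 1 hx.2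
  have h2 := H_Q_eq (lb x) hP hy
  have h3 := H_P_zero hD hst hv hP hx
  rw [h1, h3] at h2
  linarith

end lin

end

end Pool.Agent.Helper89.RAT
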