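import Pool.Agent.Helper89.RAT.Fam
import Pool.Agent.Helper66.MT.Spj

/-! THE LEVEL EXPANDS: if no gradient of the form of the window `c` is saturated, the exponent of the gradient in every
direction grows at least with speed one. -/

set_option autoImplicit false

namespace Pool.Agent.Helper89.RAT

open Finset Filter Topology Matrix Pool.Agent.Helper69.RK Pool.Agent.Helper31.EC Pool.Agent.Helper31.EC.Sp
open Pool.Agent.Helper40.EL Pool.Agent.Helper89.LX Pool.Agent.Helper84.MT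
open Pool.Agent.Helper3.LF (typ_and typ_mono mkFD sp_Sub sp_n typ_sub_le lb Mon pol vv ph ga phi gam nodp ph_nonneg
  phi_nonneg phi_mono phi_smul nn nn_one)
open Pool.Agent.Helper95.LF (PdM)
open Pool.Agent.Helper59.LF (fadd ladd)
open Pool.Agent.Helper66.MT (speed_all gam_eq_sum)
open Pool.Agent.Helper26.MZ (Jq_ge_self)

noncomputable section

variable {S : Sp} {M D : ℕ} {E : ℕ → ℕ} {ι : Type}

/-- forms above the identity have unit gradients -/
theorem one_le_Jq (hD : 1 ≤ D) (Q : S.VV M) (z : Fin M) (k : ℕ) (ω : (S.F k).Ω) {B : Matrix (Mon M D) (Mon M D) ℝ}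
    (hB : ∀ x, x ⬝ᵥ x ≤ x ⬝ᵥ (B *ᵥ x)) : 1 ≤ Jq (S.dl 1 k) B (Q.v k ω) z z := by
  have h1 := Jq_ge_self hD (S.dl 1 k) hB (Q.v k ω) (Pi.single z 1)
  rw [single_dv, single_dotProduct, one_mul, Pi.single_eq_same] at h1
  exact h1

/-- THE EXPONENT EXPANDS -/
theorem zx_speed [Finite ι] (s : MSys S M E ι) (hD : 1 ≤ D) {c c' : ℝ} (h0 : 0 ≤ c) (hc1 : c < 1) (hcc : c ≤ c')
    {x y : ∀ k, FD (S.F k) (Mon M D)} (hx : (gaq s.Q D).Adf (s.cnd c) x) (hy : (gaq s.Q D).Optf (s.cnd c') y)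
    (z : Fin M) {Γ : ℝ} (hΓ : ∀ e : ℝ, 0 < e → Tendsto (fun k => (x k).l.T.pb (fun ω =>
      ¬ gam (S.dl 1 k) ((x k).g ω) (s.Q.v k ((x k).l.p.π ω)) ≤ 2 ^ (2 * (Γ + e) * (S.F k).n))) UF (𝓝 0)) :
    zx s.Q z x + min (c' - c) (1 - Γ) ≤ zx s.Q z y := by
  classical
  obtain ⟨W, g, hm, hadf, K, hK, hK1, hT⟩ := speed_all (D := D) s h0 hc1 hcc hx
  set x' : ∀ k, FD (S.F k) (Mon M D) := fun k => mkFD (fadd (x k).l (W k)) (g k) (hm k) with hx'
  set τ : ℝ := min (c' - c) (1 - Γ) with hτ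
  refine le_trans ?_ (zx_opt hy hadf z)
  obtain ⟨C, hC, hbd⟩ := xz_bd z hx
  obtain ⟨C', -, hbd'⟩ := xz_bd z hadf
  have hUx := zv_UB z hx
  have hUx' := zv_UB z hadf
  apply le_of_forall_pos_le_add
  intro ε hε
  set e : ℝ := ε / 3 with he
  have he0 : 0 < e := by rw [he]; linarith
  have e1 : (fun k => ∑ ω, (x k).l.T.μ ω * (xz s.Q z k ((x k).l.p.π ω) ((x k).g ω) + τ)) =
      fun k => zv s.Q z x k + τ := by
    funext k
    rw [Finset.sum_congr rfl fun w _ => mul_add _ _ _, Finset.sum_add_distrib, ← Finset.sum_mul,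
      Pool.Agent.Helper3.PR.sum_mu, one_mul]
    rfl
  have e2 : (fun k => ∑ ω, (x k).l.T.μ ω * (xz s.Q z k ((x k).l.p.π ω) (g k ω) + (|τ| + ε))) =
      fun k => zv s.Q z x' k + (|τ| + ε) := by
    funext k
    rw [Finset.sum_congr rfl fun w _ => mul_add _ _ _, Finset.sum_add_distrib, ← Finset.sum_mul,
      Pool.Agent.Helper3.PR.sum_mu, one_mul]
    rfl
  have e3 : (fun k => ∑ ω, (x k).l.T.μ ω * (xz s.Q z k ((x k).l.p.π ω) ((x k).g ω) + (τ + |τ|))) =
      fun k => zv s.Q z x k + (τ + |τ|) := by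
    funext k
    rw [Finset.sum_congr rfl fun w _ => mul_add _ _ _, Finset.sum_add_distrib, ← Finset.sum_mul,
      Pool.Agent.Helper3.PR.sum_mu, one_mul]
    rfl
  have hT1 : Tendsto (fun k => (x k).l.T.pb (fun ω =>
      ¬ gam (S.dl 1 k) ((x k).g ω) (s.Q.v k ((x k).l.p.π ω)) ≤ 2 ^ (2 * (Γ + e) * (S.F k).n))) UF (𝓝 0) := hΓ e he0
  set Ev : ∀ k, (x k).l.T.Ω → Prop := fun k ω => (∀ v : Fin M → ℝ, min ((S.dl c k / S.dl c' k) ^ 2)
      ((S.dl 1 k ^ 2 * gam (S.dl 1 k) ((x k).g ω) (s.Q.v k ((x k).l.p.π ω)))⁻¹) *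
      (v ⬝ᵥ (Jq (S.dl 1 k) ((x k).g ω) (s.Q.v k ((x k).l.p.π ω)) *ᵥ v)) ≤
      K k * (v ⬝ᵥ (Jq (S.dl 1 k) (g k ω) (s.Q.v k ((x k).l.p.π ω)) *ᵥ v))) ∧
      gam (S.dl 1 k) ((x k).g ω) (s.Q.v k ((x k).l.p.π ω)) ≤ 2 ^ (2 * (Γ + e) * (S.F k).n) with hEv
  have hTE : Tendsto (fun k => (x k).l.T.pb (fun ω => ¬ Ev k ω)) UF (𝓝 0) := by
    have hT2 : Tendsto (fun k => (x k).l.T.pb (fun ω => ¬ ((∀ f : Mon M D → ℝ,
        (∀ z, (f ⬝ᵥ z) ^ 2 ≤ (S.dl c k / S.dl c' k) ^ 2 * qf ((x k).g ω) z) →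
          ph D (pol f) (S.dl 1 k) (s.Q.v k ((x k).l.p.π ω)) ≤ 1 → ∀ z, (f ⬝ᵥ z) ^ 2 ≤ K k * qf (g k ω) z) ∧
        (∀ e : Fin M → ℝ, min ((S.dl c k / S.dl c' k) ^ 2)
            ((S.dl 1 k ^ 2 * gam (S.dl 1 k) ((x k).g ω) (s.Q.v k ((x k).l.p.π ω)))⁻¹) *
            (e ⬝ᵥ (Jq (S.dl 1 k) ((x k).g ω) (s.Q.v k ((x k).l.p.π ω)) *ᵥ e)) ≤
          K k * (e ⬝ᵥ (Jq (S.dl 1 k) (g k ω) (s.Q.v k ((x k).l.p.π ω)) *ᵥ e))) ∧
        min ((S.dl c k / S.dl c' k) ^ 2 * gam (S.dl 1 k) ((x k).g ω) (s.Q.v k ((x k).l.p.π ω)))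
            ((S.dl 1 k ^ 2)⁻¹) ≤ K k * gam (S.dl 1 k) (g k ω) (s.Q.v k ((x k).l.p.π ω))))) UF (𝓝 0) := hT
    have h3 := hT2.add hT1
    rw [add_zero] at h3
    refine tendsto_of_tendsto_of_tendsto_of_le_of_le tendsto_const_nhds h3 (fun k => (x k).l.T.pb_nonneg _)
      (fun k => ?_)
    refine le_trans (FSp.pb_mono _ ?_) (pb_or _ _ _)
    intro ω _ h4
    by_contra h5
    push Not at h5
    exact h4 ⟨h5.1.2.1, h5.2⟩
  have key := ul_avg_le (fun k => (x k).l.T)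
    (fun k ω => xz s.Q z k ((x k).l.p.π ω) (g k ω) + (|τ| + ε))
    (fun k ω => xz s.Q z k ((x k).l.p.π ω) ((x k).g ω) + (τ + |τ|)) Ev (fun _ => 0) tendsto_const_nhds
    (C + (τ + |τ|)) hTE (by
      filter_upwards [hx 1 one_pos, hadf 1 one_pos, hK.eventually_le he0, hK1,
        (S.Sub_const (zero_le_two (α := ℝ))).eventually_le he0] with k b3 b4 b5 b6 b7 ω hω hE
      have hn := (S.F k).pos
      have c1 := (b3.2.1 ω hω).1
      have c2 : Cpd ((gaq s.Q D).cp k) (g k ω) := (b4.2.1 ω hω).1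
      set J : ℝ := Jq (S.dl 1 k) ((x k).g ω) (s.Q.v k ((x k).l.p.π ω)) z z with hJ
      set J' : ℝ := Jq (S.dl 1 k) (g k ω) (s.Q.v k ((x k).l.p.π ω)) z z with hJ'
      have hJ1 : 1 ≤ J := one_le_Jq hD s.Q z k _ (fun v => c1.2.1 v)
      have hJ1' : 1 ≤ J' := one_le_Jq hD s.Q z k _ (fun v => c2.2.1 v)
      have hJg : J ≤ gam (S.dl 1 k) ((x k).g ω) (s.Q.v k ((x k).l.p.π ω)) := by
        rw [gam_eq_sum]
        exact Finset.single_le_sum (f := fun a => Jq (S.dl 1 k) ((x k).g ω) (s.Q.v k ((x k).l.p.π ω)) a a)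
          (fun a _ => zero_le_one.trans (one_le_Jq hD s.Q a k _ (fun v => c1.2.1 v))) (Finset.mem_univ z)
      set G : ℝ := gam (S.dl 1 k) ((x k).g ω) (s.Q.v k ((x k).l.p.π ω)) with hG
      have hG0 : 0 < G := by linarith
      have h1 := hE.1 (Pi.single z 1)
      rw [single_dv, single_dv] at h1
      have h2 : (2 : ℝ) ^ (2 * (τ - e) * (S.F k).n) ≤ min ((S.dl c k / S.dl c' k) ^ 2) ((S.dl 1 k ^ 2 * G)⁻¹) := by
        apply le_min
        · have e5 : (S.dl c k / S.dl c' k) ^ 2 = 2 ^ (2 * (c' - c) * (S.F k).n) := by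
            unfold Sp.dl
            rw [← Real.rpow_sub (by norm_num), ← Real.rpow_natCast, ← Real.rpow_mul (by norm_num)]
            congr 1
            push_cast
            ring
          rw [e5]
          apply Real.rpow_le_rpow_of_exponent_le (by norm_num)
          have h3 : τ ≤ c' - c := min_le_left _ _
          nlinarith
        · have e5 : (S.dl 1 k ^ 2)⁻¹ = 2 ^ (2 * (S.F k).n) := by
            unfold Sp.dl
            rw [← Real.rpow_natCast, ← Real.rpow_mul (by norm_num), ← Real.rpow_neg (by norm_num)]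
            congr 1
            push_cast
            ring
          rw [mul_inv, e5]
          have h3 : ((2 : ℝ) ^ (2 * (Γ + e) * (S.F k).n))⁻¹ ≤ G⁻¹ := inv_anti₀ hG0 hE.2
          refine le_trans ?_ (mul_le_mul_of_nonneg_left h3 (by positivity))
          rw [← Real.rpow_neg (by norm_num), ← Real.rpow_add (by norm_num)]
          apply Real.rpow_le_rpow_of_exponent_le (by norm_num)
          have h4 : τ ≤ 1 - Γ := min_le_right _ _
          nlinarith
      have h3 : (2 : ℝ) ^ (2 * (τ - e) * (S.F k).n) * (1 + J) ≤ 2 ^ (e * (S.F k).n) * 2 ^ (e * (S.F k).n) * (1 + J') := by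
        have a1 : (2 : ℝ) ^ (2 * (τ - e) * (S.F k).n) * J ≤ K k * J' :=
          (mul_le_mul_of_nonneg_right h2 (by linarith)).trans h1
        have a2 : K k ≤ 2 ^ (e * (S.F k).n) := by linarith
        have a3 : (2 : ℝ) ≤ 2 ^ (e * (S.F k).n) := by linarith
        have a4 : (0 : ℝ) < 2 ^ (2 * (τ - e) * (S.F k).n) := by positivity
        calc (2 : ℝ) ^ (2 * (τ - e) * (S.F k).n) * (1 + J) ≤ 2 ^ (2 * (τ - e) * (S.F k).n) * (2 * J) := by
              apply mul_le_mul_of_nonneg_left _ a4.le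
              linarith
          _ = 2 * (2 ^ (2 * (τ - e) * (S.F k).n) * J) := by ring
          _ ≤ 2 * (K k * J') := by linarith
          _ ≤ 2 ^ (e * (S.F k).n) * (2 ^ (e * (S.F k).n) * (1 + J')) := by
              apply mul_le_mul a3 _ (by nlinarith) (by positivity)
              exact mul_le_mul a2 (by linarith) (by linarith) (by positivity)
          _ = _ := by ring
      have h4 := Real.logb_le_logb_of_le (b := 2) (by norm_num) (by positivity) h3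
      rw [Real.logb_mul (by positivity) (by positivity), Real.logb_mul (by positivity) (by positivity),
        Real.logb_mul (by positivity) (by positivity), Real.logb_rpow (by norm_num) (by norm_num),
        Real.logb_rpow (by norm_num) (by norm_num)] at h4
      show Real.logb 2 (1 + J) / (2 * (S.F k).n) + (τ + |τ|) ≤ Real.logb 2 (1 + J') / (2 * (S.F k).n) + (|τ| + ε) + 0
      have h5 : Real.logb 2 (1 + J) / (2 * (S.F k).n) ≤ (Real.logb 2 (1 + J') + 2 * (ε - τ) * (S.F k).n) /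
          (2 * (S.F k).n) := by
        apply div_le_div_of_nonneg_right _ (by positivity)
        rw [he] at h4
        nlinarith
      have h6 : (Real.logb 2 (1 + J') + 2 * (ε - τ) * (S.F k).n) / (2 * (S.F k).n) =
          Real.logb 2 (1 + J') / (2 * (S.F k).n) + (ε - τ) := by
        field_simp
      linarith) (by
      filter_upwards [hbd] with k a ω hω
      linarith [(a ω hω).2]) (by
      filter_upwards [hbd'] with k a ω hω
      have h1 : 0 ≤ xz s.Q z k ((x k).l.p.π ω) (g k ω) := (a ω hω).1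
      positivity) (by rw [e3]; exact hUx.add (UB_const _)) (by rw [e2]; exact hUx'.add (UB_const _))
  rw [e3, e2, ul_add hUx (UB_const _), ul_const, ul_add hUx' (UB_const _), ul_const] at key
  unfold zx
  linarith

/-- THE LEVEL EXPANDS -/
theorem Pdt.eta_speed {d g r : ℕ} {s : MSys S (d + 1) (lin g) (Fin r)} {j : Fin (d + 1)} {P : S.VV d}
    (h : Pdt s D j P) (hD : 1 ≤ D) (hst : STm D d (lin g) (Fin r)) {c c' : ℝ} (h0 : 0 ≤ c) (hc1 : c < 1)
    (hcc : c ≤ c') (hc' : c' ≤ 1) {x : ∀ k, FD (S.F k) (Mon (d + 1) D)} (hx : s.IsCan D c x) {Γ : ℝ}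
    (hΓ : ∀ e : ℝ, 0 < e → Tendsto (fun k => (x k).l.T.pb (fun ω =>
      ¬ gam (S.dl 1 k) ((x k).g ω) (s.Q.v k ((x k).l.p.π ω)) ≤ 2 ^ (2 * (Γ + e) * (S.F k).n))) UF (𝓝 0)) :
    eta s D P c + min (c' - c) (1 - Γ) ≤ eta s D P c' := by
  obtain ⟨y, hy⟩ := s.exists_can D c'
  have h1 := zx_speed s hD h0 hc1 hcc hx.1.1 hy.1 j hΓ
  rw [h.eta_eq hD hst h0 hc1 hx]
  rcases lt_or_eq_of_le hc' with h2 | h2
  · rw [h.eta_eq hD hst (h0.trans hcc) h2 hy]
    exact h1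
  · rw [h2, h.eta_one hD]
    rw [h2] at h1
    exact h1.trans (zx_le_one j hy.1.1)

end

end Pool.Agent.Helper89.RAT
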