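import Pool.Agent.Helper89.RAT.Fz
import Pool.Agent.Helper26.MT.Zo
import Pool.Agent.Helper49.MT.Agr

/-! AN OPTIMAL FORM DOMINATES ITS DERIVATIVES, pointwise scale: typically `A (∂_z v) ≤ 2 ^ (e n) (1 + J_zz) A (v)`, where
`J_zz` is the size of the gradient of the form at the point in the direction `z`. -/

set_option autoImplicit false

namespace Pool.Agent.Helper89.RAT

open Finset Filter Topology Matrix Pool.Agent.Helper69.RK Pool.Agent.Helper31.EC Pool.Agent.Helper31.EC.Sp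
open Pool.Agent.Helper40.EL Pool.Agent.Helper89.LX Pool.Agent.Helper3.LF Pool.Agent.Helper84.MT
open Pool.Agent.Helper95.LF (PdM)
open Pool.Agent.Helper48.NS (Tm dd_eq)

noncomputable section

/-- a partition with few cells -/
theorem few {T : FSp} (j : T.Ω → ℕ) (J : ℕ) (hj : ∀ ω, T.μ ω ≠ 0 → j ω ≤ J) (y : FL T) :
    h (fc (Setoid.ker fun ω => (fun _ : Fin 1 => (j ω : ℤ)))) y ≤ Real.logb 2 (J + 1) := by
  refine (h_anti (bot_le : (⊥ : FL T) ≤ y)).trans ?_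
  rw [← fc_top, h_fc]
  have h1 := T.e_int_le (fun ω => (fun _ : Fin 1 => (j ω : ℤ))) (⊤ ⊓ T.Z) J (Nat.cast_nonneg J) (by
    intro ω ω' a b _ i
    have h1 : (j ω : ℝ) ≤ J := by exact_mod_cast hj ω a
    have h2 : (j ω' : ℝ) ≤ J := by exact_mod_cast hj ω' b
    have h3 : (0 : ℝ) ≤ j ω := Nat.cast_nonneg _
    have h4 : (0 : ℝ) ≤ j ω' := Nat.cast_nonneg _
    push_cast
    rw [abs_le]
    constructor <;> linarith)
  rw [Nat.cast_one, one_mul] at h1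
  exact h1

section gen
variable {S : Sp} {ι : Type} [Fintype ι] [DecidableEq ι] (Φ : Gau S ι) {κ : Type}

/-- a label with forms, with a second form which is a function of the label and of a class -/
def scl {F : FSp} (x : FD F ι) (j : x.l.T.Ω → ℕ) (g2 : x.l.T.Ω → Matrix ι ι ℝ)
    (hm : ∀ ω ω', x.l.T.μ ω ≠ 0 → x.l.T.μ ω' ≠ 0 → x.l.V ω ω' → x.l.T.Z ω ω' → j ω = j ω' → g2 ω = g2 ω') : FD F ι where
  l := x.l.addW (Setoid.ker fun ω => (fun _ : Fin 1 => (j ω : ℤ)))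
  g := x.g
  g' := g2
  meas := fun ω ω' a b c d => by
    refine ⟨(x.meas ω ω' a b c.1 d).1, hm ω ω' a b c.1 d ?_⟩
    have h1 : (fun _ : Fin 1 => (j ω : ℤ)) = fun _ : Fin 1 => (j ω' : ℤ) := c.2
    exact_mod_cast congrFun h1 0

/-- an optimal form dominates a second form which is a function of the label and of a class (few classes) -/
theorem dom_cls {A : κ → Part S} {x : ∀ k, FD (S.F k) ι} (hx : Φ.Optf A x) (j : ∀ k, (x k).l.T.Ω → ℕ) (J : ℕ)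
    (hj : ∀ k ω, j k ω ≤ J) (g2 : ∀ k, (x k).l.T.Ω → Matrix ι ι ℝ)
    (hm : ∀ k ω ω', (x k).l.T.μ ω ≠ 0 → (x k).l.T.μ ω' ≠ 0 → (x k).l.V ω ω' → (x k).l.T.Z ω ω' → j k ω = j k ω' →
      g2 k ω = g2 k ω')
    (hc : ∀ᶠ k in UF, ∀ ω, (x k).l.T.μ ω ≠ 0 → Cpd (Φ.cp k) (g2 k ω))
    (hφ : ∀ η : ℝ, 0 < η → ∀ᶠ k in UF,
      (x k).l.T.pb (fun ω => ¬ Φ.φ k ((x k).l.p.π ω) (g2 k ω) ≤ 2 ^ (η * (S.F k).n)) ≤ η) (e : ℝ) (he : 0 < e) :
    Tendsto (fun k => (x k).l.T.pb (fun ω => ¬ ∀ v, qf (g2 k ω) v ≤ 2 ^ (e * (S.F k).n) * qf ((x k).g ω) v))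
      UF (𝓝 0) := by
  set y : ∀ k, FD (S.F k) ι := fun k => scl (x k) (j k) (g2 k) (hm k) with hy
  have hyA : Φ.Adf A y := by
    intro η hη
    have hη2 : 0 < η / 2 := by linarith
    filter_upwards [hx.1 _ hη2, hx.1 η hη, hc, hφ η hη, (S.div_n_tendsto (Real.logb 2 (J + 1))).eventually
      (gt_mem_nhds hη2)] with k a a' b c d
    have hn := (S.F k).pos
    rw [div_lt_iff₀ hn] at d
    refine ⟨fun i => ?_, fun ω hω => ⟨(a.2.1 ω hω).1, b ω hω⟩, a'.2.2.1, c⟩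
    have h1 := (x k).l.addW_leak_le (Setoid.ker fun ω => (fun _ : Fin 1 => (j k ω : ℤ))) (A i k)
    have h2 := few (T := (x k).l.T) (j k) J (fun ω _ => hj k ω) ((x k).l.v ⊔ (x k).l.p.map (A i k))
    have h3 := a.1 i
    show ((x k).l.addW _).leak (A i k) ≤ _
    linarith
  exact Gau.opt_nearf Φ hyA (fun z hz => hx.2 z hz) e he

end gen

variable {S : Sp} {M D : ℕ} {κ : Type}

/-- the size of the gradient in the direction `z` at the point -/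
def Jz (Q : S.VV M) (z : Fin M) (k : ℕ) (ω : (S.F k).Ω) (A : Matrix (Mon M D) (Mon M D) ℝ) : ℝ :=
  1 + Jq (S.dl 1 k) A (Q.v k ω) z z

theorem single_dv (z : Fin M) (J : Matrix (Fin M) (Fin M) ℝ) :
    (Pi.single z 1 : Fin M → ℝ) ⬝ᵥ (J *ᵥ (Pi.single z 1 : Fin M → ℝ)) = J z z := by
  rw [single_dotProduct, one_mul, Matrix.mulVec_single_one]
  rfl

theorem one_le_Jz (Q : S.VV M) (z : Fin M) (k : ℕ) (ω : (S.F k).Ω) {A : Matrix (Mon M D) (Mon M D) ℝ}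
    (hA : ∀ x, 0 ≤ x ⬝ᵥ (A *ᵥ x)) : 1 ≤ Jz Q z k ω A := by
  have h1 := Jq_nonneg (S.dl 1 k) hA (Q.v k ω) (Pi.single z 1)
  rw [single_dv] at h1
  unfold Jz
  linarith

/-- upper bound of the gradient by the size -/
theorem Jz_le (Q : S.VV M) (z : Fin M) (k : ℕ) (ω : (S.F k).Ω) {A : Matrix (Mon M D) (Mon M D) ℝ} (hA : PdM A) :
    Jz Q z k ω A ≤ 1 + M * nn M D * Cm M D ^ 2 * (2 ^ (2 * (S.F k).n) * phi (S.dl 1 k) A (Q.v k ω)) := by
  have h1 := Jq_gam (S.dl 1 k) A hA (Q.v k ω) (Pi.single z 1)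
  rw [single_dv, single_dotProduct, one_mul, Pi.single_eq_same, mul_one] at h1
  have hd := S.dl_pos 1 k
  have h2 : (S.dl 1 k) ^ 2 * gam (S.dl 1 k) A (Q.v k ω) ≤ M * nn M D * Cm M D ^ 2 * phi (S.dl 1 k) A (Q.v k ω) := by
    obtain ⟨C, -, hC1, hC2⟩ := exists_rows A hA
    rw [hC1, hC2, Finset.mul_sum, Finset.mul_sum]
    exact Finset.sum_le_sum fun i _ => ga_le _ (pol_deg _) _ hd _
  have e1 : (2 : ℝ) ^ (2 * (S.F k).n) = ((S.dl 1 k) ^ 2)⁻¹ := by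
    unfold Sp.dl
    rw [← Real.rpow_natCast, ← Real.rpow_mul (by norm_num), ← Real.rpow_neg (by norm_num)]
    congr 1
    push_cast
    ring
  unfold Jz
  have h3 : gam (S.dl 1 k) A (Q.v k ω) ≤ M * nn M D * Cm M D ^ 2 * (2 ^ (2 * (S.F k).n) * phi (S.dl 1 k) A (Q.v k ω)) := by
    rw [e1]
    have h4 : 0 < ((S.dl 1 k) ^ 2)⁻¹ := by positivity
    have h5 := mul_le_mul_of_nonneg_left h2 h4.le
    rw [← mul_assoc, inv_mul_cancel₀ (by positivity), one_mul] at h5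
    refine h5.trans (le_of_eq ?_)
    ring
  linarith

/-- the class of the gradient in the direction `z` -/
def zcl (Q : S.VV M) (z : Fin M) (x : ∀ k, FD (S.F k) (Mon M D)) (e₀ : ℝ) (J k : ℕ) (ω : (x k).l.T.Ω) : ℕ :=
  min J ⌊Real.logb 2 (Jz Q z k ((x k).l.p.π ω) ((x k).g ω)) / (e₀ * (S.F k).n)⌋₊

theorem zcl_le (Q : S.VV M) (z : Fin M) (x : ∀ k, FD (S.F k) (Mon M D)) {e₀ : ℝ} (he : 0 < e₀) (J k : ℕ)
    (ω : (x k).l.T.Ω) (h1 : 1 ≤ Jz Q z k ((x k).l.p.π ω) ((x k).g ω)) :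
    2 ^ ((zcl Q z x e₀ J k ω : ℝ) * e₀ * (S.F k).n) ≤ Jz Q z k ((x k).l.p.π ω) ((x k).g ω) := by
  have hn := (S.F k).pos
  have h2 : (0 : ℝ) ≤ Real.logb 2 (Jz Q z k ((x k).l.p.π ω) ((x k).g ω)) := Real.logb_nonneg (by norm_num) h1
  have h3 : (zcl Q z x e₀ J k ω : ℝ) ≤ Real.logb 2 (Jz Q z k ((x k).l.p.π ω) ((x k).g ω)) / (e₀ * (S.F k).n) := by
    refine le_trans ?_ (Nat.floor_le (by positivity))
    exact_mod_cast min_le_right _ _
  rw [le_div_iff₀ (by positivity)] at h3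
  rw [← Real.le_logb_iff_rpow_le (by norm_num) (by linarith)]
  linarith

theorem zcl_ge (Q : S.VV M) (z : Fin M) (x : ∀ k, FD (S.F k) (Mon M D)) {e₀ : ℝ} (he : 0 < e₀) (J k : ℕ)
    (ω : (x k).l.T.Ω) (h1 : 1 ≤ Jz Q z k ((x k).l.p.π ω) ((x k).g ω))
    (h2 : Jz Q z k ((x k).l.p.π ω) ((x k).g ω) ≤ 2 ^ ((J : ℝ) * e₀ * (S.F k).n)) :
    Jz Q z k ((x k).l.p.π ω) ((x k).g ω) ≤ 2 ^ (((zcl Q z x e₀ J k ω : ℝ) + 1) * e₀ * (S.F k).n) := by
  have hn := (S.F k).pos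
  unfold zcl
  rcases le_total J ⌊Real.logb 2 (Jz Q z k ((x k).l.p.π ω) ((x k).g ω)) / (e₀ * (S.F k).n)⌋₊ with h | h
  · rw [min_eq_left h]
    refine h2.trans ?_
    apply Real.rpow_le_rpow_of_exponent_le (by norm_num)
    have : 0 ≤ e₀ * (S.F k).n := by positivity
    nlinarith
  · rw [min_eq_right h]
    have h3 := Nat.lt_floor_add_one (Real.logb 2 (Jz Q z k ((x k).l.p.π ω) ((x k).g ω)) / (e₀ * (S.F k).n))
    rw [div_lt_iff₀ (by positivity)] at h3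
    rw [← Real.logb_le_iff_le_rpow (by norm_num) (by linarith)]
    linarith

/-- AN OPTIMAL FORM DOMINATES ITS DERIVATIVE in the direction `z`, at the scale of its gradient at the point -/
theorem dom_z {A : κ → Part S} (Q : S.VV M) (z : Fin M) {x : ∀ k, FD (S.F k) (Mon M D)} (hx : (gaq Q D).Optf A x)
    (e : ℝ) (he : 0 < e) :
    Tendsto (fun k => (x k).l.T.pb (fun ω => ¬ ∀ v, qf ((x k).g ω) (Tm z *ᵥ v) ≤
      2 ^ (e * (S.F k).n) * Jz Q z k ((x k).l.p.π ω) ((x k).g ω) * qf ((x k).g ω) v)) UF (𝓝 0) := by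
  classical
  set Φ := gaq Q D with hΦ
  set e₀ : ℝ := e / 4 with he₀
  have he0 : 0 < e₀ := by rw [he₀]; linarith
  obtain ⟨J, hJ⟩ := exists_nat_ge (4 / e₀)
  rw [div_le_iff₀ he0] at hJ
  set j : ∀ k, (x k).l.T.Ω → ℕ := fun k ω => zcl Q z x e₀ J k ω with hj
  set lam : ∀ k, (x k).l.T.Ω → ℝ := fun k ω => 2 ^ (-(((j k ω : ℝ) + 1) * e₀ * (S.F k).n)) with hlam
  have hlam0 : ∀ k ω, 0 < lam k ω := fun k ω => by positivity
  set g2 : ∀ k, (x k).l.T.Ω → Matrix (Mon M D) (Mon M D) ℝ :=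
    fun k ω => capd (Φ.cp k) (DZ z (lam k ω) ((x k).g ω)) with hg2
  obtain ⟨K, hK, hone⟩ := Φ.one
  -- the constant of the gradient
  have hcM : (0 : ℝ) ≤ M * nn M D * Cm M D ^ 2 := by
    have h1 := nn_one M D
    have h2 := Cm_one M D
    positivity
  -- on the typical event the class is not truncated
  have hcl : ∀ᶠ k in UF, ∀ ω, (x k).l.T.μ ω ≠ 0 → Φ.φ k ((x k).l.p.π ω) ((x k).g ω) ≤ 2 ^ (1 * (S.F k).n) →
      Jz Q z k ((x k).l.p.π ω) ((x k).g ω) ≤ 2 ^ (((j k ω : ℝ) + 1) * e₀ * (S.F k).n) ∧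
      1 ≤ Jz Q z k ((x k).l.p.π ω) ((x k).g ω) := by
    have hs := (S.Sub_const (show (0 : ℝ) ≤ 1 + M * nn M D * Cm M D ^ 2 by linarith)).eventually_le one_pos
    filter_upwards [hx.1 1 one_pos, hs] with k a b ω hω hφ
    have hn := (S.F k).pos
    have hA := (a.2.1 ω hω).1
    have h1 := one_le_Jz Q z k ((x k).l.p.π ω) (fun v => hA.psd.2 v)
    refine ⟨zcl_ge Q z x he0 J k ω h1 ?_, h1⟩
    refine (Jz_le Q z k _ hA.pdM).trans ?_
    have h2 : phi (S.dl 1 k) ((x k).g ω) (Q.v k ((x k).l.p.π ω)) ≤ 2 ^ (1 * (S.F k).n) := hφ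
    have h3 : (2 : ℝ) ^ (2 * (S.F k).n) * phi (S.dl 1 k) ((x k).g ω) (Q.v k ((x k).l.p.π ω)) ≤ 2 ^ (3 * (S.F k).n) := by
      refine (mul_le_mul_of_nonneg_left h2 (by positivity)).trans (le_of_eq ?_)
      rw [← Real.rpow_add (by norm_num)]
      congr 1
      ring
    have h4 : (1 : ℝ) ≤ 2 ^ (3 * (S.F k).n) := Real.one_le_rpow (by norm_num) (by positivity)
    calc 1 + M * nn M D * Cm M D ^ 2 * (2 ^ (2 * (S.F k).n) * phi (S.dl 1 k) ((x k).g ω) (Q.v k ((x k).l.p.π ω)))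
        ≤ 2 ^ (3 * (S.F k).n) + M * nn M D * Cm M D ^ 2 * 2 ^ (3 * (S.F k).n) :=
          add_le_add h4 (mul_le_mul_of_nonneg_left h3 hcM)
      _ = (1 + M * nn M D * Cm M D ^ 2) * 2 ^ (3 * (S.F k).n) := by ring
      _ ≤ 2 ^ (1 * (S.F k).n) * 2 ^ (3 * (S.F k).n) := by
          apply mul_le_mul_of_nonneg_right _ (by positivity)
          linarith
      _ = 2 ^ (4 * (S.F k).n) := by
          rw [← Real.rpow_add (by norm_num)]
          congr 1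
          ring
      _ ≤ _ := by
          apply Real.rpow_le_rpow_of_exponent_le (by norm_num)
          nlinarith
  -- the size of the second form
  have hsz : ∀ᶠ k in UF, ∀ ω, (x k).l.T.μ ω ≠ 0 → Φ.φ k ((x k).l.p.π ω) ((x k).g ω) ≤ 2 ^ (1 * (S.F k).n) →
      Φ.φ k ((x k).l.p.π ω) (DZ z (lam k ω) ((x k).g ω)) ≤ K k + 1 := by
    filter_upwards [hcl, hone, hx.1 1 one_pos] with k a b c ω hω hφ
    obtain ⟨h1, h2⟩ := a ω hω hφ
    have h3 : Φ.φ k ((x k).l.p.π ω) (DZ z (lam k ω) ((x k).g ω)) = Φ.φ k ((x k).l.p.π ω) 1 +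
        lam k ω * Jq (S.dl 1 k) ((x k).g ω) (Q.v k ((x k).l.p.π ω)) z z := DZ_phi z _ _ _ _
    have h4 := b ((x k).l.p.π ω) ((x k).l.p.supp ω hω)
    have h5 : lam k ω * Jq (S.dl 1 k) ((x k).g ω) (Q.v k ((x k).l.p.π ω)) z z ≤ 1 := by
      have e1 : lam k ω * 2 ^ (((j k ω : ℝ) + 1) * e₀ * (S.F k).n) = 1 := by
        rw [hlam]
        show (2 : ℝ) ^ _ * _ = 1
        rw [← Real.rpow_add (by norm_num)]
        simp
      refine le_trans (mul_le_mul_of_nonneg_left ?_ (hlam0 k ω).le) e1.le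
      refine le_trans ?_ h1
      unfold Jz
      linarith
    rw [h3]
    linarith
  have hK1 : S.Sub (fun k => K k + 1) := hK.add (S.Sub_const zero_le_one)
  have hdom := dom_cls Φ hx j J (fun k ω => min_le_left _ _) g2 (by
      intro k ω ω' a b c d hjj
      show capd (Φ.cp k) (DZ z (lam k ω) ((x k).g ω)) = capd (Φ.cp k) (DZ z (lam k ω') ((x k).g ω'))
      rw [((x k).meas ω ω' a b c d).1]
      have h1 : lam k ω = lam k ω' := by
        show (2 : ℝ) ^ (-(((j k ω : ℝ) + 1) * e₀ * (S.F k).n)) = 2 ^ (-(((j k ω' : ℝ) + 1) * e₀ * (S.F k).n))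
        rw [hjj]
      rw [h1]) (Eventually.of_forall fun k ω _ => capd_Cpd (Φ.one_le_cp k) _) (by
      intro η hη
      have hm : 0 < min η 1 := lt_min hη one_pos
      filter_upwards [hx.1 _ hm, hsz, hone, hK1.eventually_le hη, hK1.1] with k a b c d d'
      have hn := (S.F k).pos
      refine le_trans (FSp.pb_mono _ ?_) (a.2.2.1.trans (min_le_left _ _))
      intro ω hω h1 h2
      apply h1
      have h3 : Φ.φ k ((x k).l.p.π ω) ((x k).g ω) ≤ 2 ^ (1 * (S.F k).n) := by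
        refine h2.trans (Real.rpow_le_rpow_of_exponent_le (by norm_num) ?_)
        exact mul_le_mul_of_nonneg_right (min_le_right _ _) hn.le
      have h4 := b ω hω h3
      have h5 := c ((x k).l.p.π ω) ((x k).l.p.supp ω hω)
      show Φ.φ k ((x k).l.p.π ω) (capd (Φ.cp k) (DZ z (lam k ω) ((x k).g ω))) ≤ _
      unfold capd
      split_ifs
      · linarith
      · linarith) (e / 2) (by linarith)
  -- the cap is not reached
  have hcap : Tendsto (fun k => (x k).l.T.pb (fun ω => ¬ Φ.φ k ((x k).l.p.π ω) ((x k).g ω) ≤ 2 ^ (1 * (S.F k).n)))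
      UF (𝓝 0) := by
    rw [Metric.tendsto_nhds]
    intro ε hε
    have hm : 0 < min (ε / 2) 1 := lt_min (by linarith) one_pos
    filter_upwards [hx.1 _ hm] with k a
    have hn := (S.F k).pos
    rw [Real.dist_eq, sub_zero, abs_of_nonneg ((x k).l.T.pb_nonneg _)]
    have h1 : (x k).l.T.pb (fun ω => ¬ Φ.φ k ((x k).l.p.π ω) ((x k).g ω) ≤ 2 ^ (1 * (S.F k).n)) ≤ min (ε / 2) 1 := by
      refine le_trans (FSp.pb_mono _ ?_) a.2.2.1
      intro ω _ h2 h3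
      apply h2
      refine h3.trans (Real.rpow_le_rpow_of_exponent_le (by norm_num) ?_)
      exact mul_le_mul_of_nonneg_right (min_le_right _ _) hn.le
    have h2 : min (ε / 2) 1 ≤ ε / 2 := min_le_left _ _
    linarith
  have hsum := hdom.add hcap
  rw [add_zero] at hsum
  refine tendsto_of_tendsto_of_tendsto_of_le_of_le' tendsto_const_nhds hsum
    (Eventually.of_forall fun k => (x k).l.T.pb_nonneg _) ?_
  filter_upwards [hsz, hcl, cpd_ev (Φ := Φ) (fun k => K k + 1) hK1, hx.1 1 one_pos] with k a b c d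
  have hn := (S.F k).pos
  refine le_trans (FSp.pb_mono _ ?_) (pb_or _ _ _)
  intro ω hω h1
  by_contra h2
  push Not at h2
  obtain ⟨h2, h3⟩ := h2
  apply h1
  intro v
  have hA := (d.2.1 ω hω).1
  have h4 := a ω hω h3
  obtain ⟨h5, h6⟩ := b ω hω h3
  have h7 := c ((x k).l.p.π ω) ((x k).l.p.supp ω hω) (DZ z (lam k ω) ((x k).g ω)) (DZ_symm z _ hA.1)
    (DZ_ge z (hlam0 k ω).le fun v => hA.psd.2 v) h4
  have h8 : g2 k ω = DZ z (lam k ω) ((x k).g ω) := capd_eq h7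
  have h9 := h2 v
  rw [h8, DZ_qf] at h9
  have h10 := dot_self_nonneg v
  have h11 : lam k ω * qf ((x k).g ω) (Tm z *ᵥ v) ≤ 2 ^ (e / 2 * (S.F k).n) * qf ((x k).g ω) v := by linarith
  have h12 := zcl_le Q z x he0 J k ω h6
  have h13 : 0 ≤ qf ((x k).g ω) v := hA.psd.2 v
  have e2 : qf ((x k).g ω) (Tm z *ᵥ v) = 2 ^ (((j k ω : ℝ) + 1) * e₀ * (S.F k).n) *
      (lam k ω * qf ((x k).g ω) (Tm z *ᵥ v)) := by
    rw [← mul_assoc]
    have : (2 : ℝ) ^ (((j k ω : ℝ) + 1) * e₀ * (S.F k).n) * lam k ω = 1 := by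
      show (2 : ℝ) ^ (((j k ω : ℝ) + 1) * e₀ * (S.F k).n) * 2 ^ (-(((j k ω : ℝ) + 1) * e₀ * (S.F k).n)) = 1
      rw [← Real.rpow_add (by norm_num)]
      simp
    rw [this, one_mul]
  rw [e2]
  refine (mul_le_mul_of_nonneg_left h11 (by positivity)).trans ?_
  have e3 : (2 : ℝ) ^ (((j k ω : ℝ) + 1) * e₀ * (S.F k).n) = 2 ^ ((j k ω : ℝ) * e₀ * (S.F k).n) *
      2 ^ (e₀ * (S.F k).n) := by
    rw [← Real.rpow_add (by norm_num)]
    congr 1
    ring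
  have e4 : (2 : ℝ) ^ (e₀ * (S.F k).n) * 2 ^ (e / 2 * (S.F k).n) ≤ 2 ^ (e * (S.F k).n) := by
    rw [← Real.rpow_add (by norm_num)]
    apply Real.rpow_le_rpow_of_exponent_le (by norm_num)
    rw [he₀]
    nlinarith
  rw [e3]
  have hJ0 : 0 ≤ Jz Q z k ((x k).l.p.π ω) ((x k).g ω) := by linarith
  calc 2 ^ ((j k ω : ℝ) * e₀ * (S.F k).n) * 2 ^ (e₀ * (S.F k).n) *
        (2 ^ (e / 2 * (S.F k).n) * qf ((x k).g ω) v)
      = 2 ^ ((j k ω : ℝ) * e₀ * (S.F k).n) * (2 ^ (e₀ * (S.F k).n) * 2 ^ (e / 2 * (S.F k).n)) *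
        qf ((x k).g ω) v := by ring
    _ ≤ Jz Q z k ((x k).l.p.π ω) ((x k).g ω) * 2 ^ (e * (S.F k).n) * qf ((x k).g ω) v := by
        apply mul_le_mul_of_nonneg_right _ h13
        exact mul_le_mul h12 e4 (by positivity) hJ0
    _ = _ := by ring

end

end Pool.Agent.Helper89.RAT
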