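import Pool.Agent.Helper89.RAT.Win
import Pool.Agent.Helper41.VC.Main
import Pool.Agent.Helper84.MT.Fun

/-! THE LEVEL OF ONE COORDINATE WHICH IS KNOWN AT A WINDOW, given the other coordinates: `eta c = 1 - vol_D (c) + H (P_1 |
kappa_c)`. It is the mean exponent of the gradient of the canonical form in the direction of the coordinate, it is
monotone in the window, `eta 0 = 0` if the hull is trivial, `eta 1 = 1`. -/

set_option autoImplicit false

namespace Pool.Agent.Helper89.RAT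

open Finset Filter Topology Matrix Pool.Agent.Helper69.RK Pool.Agent.Helper31.EC Pool.Agent.Helper31.EC.Sp
open Pool.Agent.Helper40.EL Pool.Agent.Helper89.LX Pool.Agent.Helper3.LF Pool.Agent.Helper84.MT Pool.Agent.Helper26.MZ
open Pool.Agent.Helper95.LF (PdM)
open Pool.Agent.Helper14.MC (gx vx vol_eq vx_UB vx_nonneg vol_opt_le vol_opt_eq)

noncomputable section

/-- the bound at the window `0` -/
theorem idP (d : ℕ) : IdP d := by
  intro g r D _ hst S s _ x hx j P hP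
  have h1 := Pool.Agent.Helper41.VC.vol_pr hst hx j one_pos le_rfl P (fun k ω => funext fun a => hP k ω a)
  have h2 : ul (fun k => ∑ ω, (x k).l.T.μ ω *
      (Real.logb 2 (1 + Jq (S.dl 1 k) ((x k).g ω) (s.Q.v k ((x k).l.p.π ω)) j j) / (2 * (S.F k).n))) =
      zx s.Q j x := rfl
  rw [h2] at h1
  linarith

variable {S : Sp} {d D : ℕ} {E : ℕ → ℕ} {ι : Type}

/-- the level of one coordinate, given the others, at the window `c` -/
def eta [Finite ι] (s : MSys S (d + 1) E ι) (D : ℕ) (P : S.VV d) (c : ℝ) : ℝ :=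
  1 - s.vol D c + H (up1 (s.kap c) (P.dg 1))

theorem eta_can [Finite ι] {s : MSys S (d + 1) E ι} {P : S.VV d} {c : ℝ} {x : ∀ k, FD (S.F k) (Mon (d + 1) D)}
    (hx : s.IsCan D c x) : eta s D P c = 1 - vol s.Q D x + H (up1 (lb x) (P.dg 1)) := by
  unfold eta
  rw [← s.vol_eq hx.1, MSys.IsKap.H_eq (s.kap_isKap c) hx.2]
  rfl

/-- volumes are small at large windows -/
theorem vol_le_win [Finite ι] (s : MSys S (d + 1) E ι) (hD : 1 ≤ D) {c : ℝ} (h0 : 0 ≤ c) (h1 : c < 1) :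
    s.vol D c ≤ (1 - c) * (d + 1) := by
  obtain ⟨x, hx⟩ := s.exists_can D c
  set Z : ZM s := s.mkz h0 h1 hx.2.1 with hZ
  obtain ⟨y, hy⟩ := Z.sys.exists_can D 0
  have hx' : s.IsCan D (Z.c + Z.e * 0) x := by
    rw [mul_zero, add_zero]
    exact hx
  have hv := Z.vol_can hD le_rfl hy hx'
  rw [← s.vol_eq hx.1, hv, Z.sys.vol_eq hy.1]
  have h2 := Z.sys.vol_le_M D 0
  have h3 : Z.e = 1 - c := rfl
  rw [← h3]
  push_cast at h2
  exact mul_le_mul_of_nonneg_left h2 Z.e_pos.le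

theorem vol_one_le [Finite ι] (s : MSys S (d + 1) E ι) (hD : 1 ≤ D) : s.vol D 1 ≤ 0 := by
  apply le_of_forall_pos_le_add
  intro ε hε
  have hd : (0 : ℝ) < (d + 1 : ℝ) := by positivity
  set t : ℝ := min 1 (ε / (d + 1)) with ht
  have ht0 : 0 < t := lt_min one_pos (by positivity)
  have ht1 : t ≤ 1 := min_le_left _ _
  have h1 := (s.vol_anti D (show 1 - t ≤ 1 by linarith)).trans (vol_le_win s hD (c := 1 - t) (by linarith) (by linarith))
  have h2 : t * (d + 1) ≤ ε := by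
    have : t ≤ ε / (d + 1) := min_le_right _ _
    rwa [le_div_iff₀ hd] at this
  have h3 : (1 - (1 - t)) * ((d : ℝ) + 1) = t * (d + 1) := by ring
  rw [h3] at h1
  linarith

/-- the data of the coordinate `j`: the other coordinates, and the bound of the volume from below (helper4, row VOLZ) -/
structure Pdt [Finite ι] (s : MSys S (d + 1) E ι) (D : ℕ) (j : Fin (d + 1)) (P : S.VV d) : Prop where
  hP : ∀ k ω a, P.v k ω a = s.Q.v k ω (j.succAbove a)
  vz : ∀ c x, s.IsCan D c x → H (up1 (lb x) (P.dg 1)) + 1 - zx s.Q j x ≤ vol s.Q D x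

section pdt

variable [Finite ι] {s : MSys S (d + 1) E ι} {j : Fin (d + 1)} {P : S.VV d} (h : Pdt s D j P)

include h

theorem Pdt.P_le (r : ℝ) : P.dg r ≤ s.Q.dg r := by
  apply VV.dg_le_dg P s.Q r r (fun _ _ => True) Typ_true (fun _ => 1) (S.Sub_const zero_le_one)
  refine Eventually.of_forall fun k ω ω' _ _ _ _ _ hd i => ?_
  rw [h.hP, h.hP, one_mul]
  exact hd _

theorem Pdt.eta_le {c : ℝ} {x : ∀ k, FD (S.F k) (Mon (d + 1) D)} (hx : s.IsCan D c x) : eta s D P c ≤ zx s.Q j x := by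
  rw [eta_can hx]
  have := h.vz c x hx
  linarith

theorem Pdt.H_le {c : ℝ} (hD : 1 ≤ D) {x : ∀ k, FD (S.F k) (Mon (d + 1) D)} (hx : s.IsCan D c x) :
    H (up1 (lb x) (P.dg 1)) ≤ vol s.Q D x := by
  refine le_trans ?_ (Pool.Agent.Helper14.MC.cnt_vol s.Q hD x hx.1.1)
  exact H_mono (up1_mono _ (h.P_le 1))

theorem Pdt.vol_one (hD : 1 ≤ D) : s.vol D 1 = 0 := by
  apply le_antisymm (vol_one_le s hD)
  obtain ⟨x, hx⟩ := s.exists_can D 1
  rw [← s.vol_eq hx.1]
  exact (H_nonneg _).trans (h.H_le hD hx)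

theorem Pdt.eta_one (hD : 1 ≤ D) : eta s D P 1 = 1 := by
  obtain ⟨x, hx⟩ := s.exists_can D 1
  have h1 := h.H_le hD hx
  rw [s.vol_eq hx.1, h.vol_one hD] at h1
  have h2 : H (up1 (lb x) (P.dg 1)) = 0 := le_antisymm h1 (H_nonneg _)
  rw [eta_can hx, s.vol_eq hx.1, h.vol_one hD, h2]
  ring

theorem Pdt.eta_le_one {c : ℝ} (_ : 0 ≤ c) : eta s D P c ≤ 1 := by
  obtain ⟨x, hx⟩ := s.exists_can D c
  exact (h.eta_le hx).trans (zx_le_one j hx.1.1)

end pdt

section lin

variable {g r : ℕ} {s : MSys S (d + 1) (lin g) (Fin r)} {j : Fin (d + 1)} {P : S.VV d} (h : Pdt s D j P)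

include h

/-- THE IDENTITY: the level is the mean exponent of the gradient -/
theorem Pdt.eta_eq (hD : 1 ≤ D) (hst : STm D d (lin g) (Fin r)) {c : ℝ} (h0 : 0 ≤ c) (h1 : c < 1)
    {x : ∀ k, FD (S.F k) (Mon (d + 1) D)} (hx : s.IsCan D c x) : eta s D P c = zx s.Q j x := by
  apply le_antisymm (h.eta_le hx)
  have h2 := (idP d).win hD hst s h0 h1 hx j P h.hP
  rw [eta_can hx]
  linarith

theorem Pdt.eta_nonneg (hD : 1 ≤ D) (hst : STm D d (lin g) (Fin r)) {c : ℝ} (h0 : 0 ≤ c) (h1 : c < 1) :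
    0 ≤ eta s D P c := by
  obtain ⟨x, hx⟩ := s.exists_can D c
  rw [h.eta_eq hD hst h0 h1 hx]
  exact zx_nonneg j hx.1.1

/-- the level is monotone in the window -/
theorem Pdt.eta_mono (hD : 1 ≤ D) (hst : STm D d (lin g) (Fin r)) : MonotoneOn (eta s D P) (Set.Icc 0 1) := by
  intro a ha b hb hab
  rcases lt_or_ge b 1 with h1 | h1
  · obtain ⟨x, hx⟩ := s.exists_can D a
    obtain ⟨y, hy⟩ := s.exists_can D b
    rw [h.eta_eq hD hst ha.1 (hab.trans_lt h1) hx, h.eta_eq hD hst hb.1 h1 hy]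
    exact zx_opt hy.1 (hx.1.1.mono_of fun i => ⟨i, s.cnd_mono hab i⟩) j
  · have h2 : b = 1 := le_antisymm hb.2 h1
    rw [h2, h.eta_one hD]
    exact h.eta_le_one ha.1

/-- the level is zero at the window `0` if the hull is trivial -/
theorem Pdt.eta_zero (hD : 1 ≤ D) (hst : STm D d (lin g) (Fin r)) (hv : (d + 1 : ℝ) ≤ s.vol D 0) :
    eta s D P 0 = 0 := by
  apply le_antisymm _ (h.eta_nonneg hD hst le_rfl one_pos)
  obtain ⟨x, hx⟩ := s.exists_can D 0
  rw [h.eta_eq hD hst le_rfl one_pos hx]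
  have h1 := zx_le_vx j hx.1.1
  rw [s.vol_eq hx.1] at h1
  push_cast at h1
  linarith

end lin

end

end Pool.Agent.Helper89.RAT
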