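import Pool.Agent.Helper48.NS.Dtm
import Pool.Agent.Helper26.MT.Zg

/-! FIBRES in the direction of one coordinate, finite level: if a form dominates its derivative in the direction of the
coordinate `z` with the constant `B ^ 2`, then its size and its gradients do not change by more than a constant under
translations by `t`, `|t| B ≤ 1`, in the direction `z`. -/

set_option autoImplicit false

namespace Pool.Agent.Helper89.RAT

open Finset Filter Topology Matrix Pool.Agent.Helper69.RK Pool.Agent.Helper31.EC Pool.Agent.Helper40.EL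
open Pool.Agent.Helper89.LX Pool.Agent.Helper3.LF Pool.Agent.Helper84.MT
open Pool.Agent.Helper95.LF (PdM)
open Pool.Agent.Helper26.MZ (pol_inj)
open Pool.Agent.Helper48.NS (Tm dd_eq ev2 ev2_norm ev2_smul ev2_sum gro_ab vv_deriv)

noncomputable section

variable {N D : ℕ}

theorem Tm_pol (i : Fin N) (a : Mon N D) : MvPolynomial.pderiv i a.mon = pol (Tm i a) :=
  (exists_pol (MvPolynomial.pderiv i a.mon) (pderiv_tdeg a.mon (mon_deg a) i)).choose_spec

theorem pderiv_pol (i : Fin N) (c : Mon N D → ℝ) : MvPolynomial.pderiv i (pol c) = pol (c ᵥ* Tm i) := by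
  unfold pol
  rw [map_sum]
  have h1 : ∀ a : Mon N D, MvPolynomial.pderiv i (MvPolynomial.C (c a) * a.mon) =
      ∑ b, MvPolynomial.C (c a * Tm i a b) * b.mon := by
    intro a
    rw [MvPolynomial.pderiv_C_mul, Tm_pol]
    unfold pol
    rw [Finset.mul_sum]
    refine Finset.sum_congr rfl fun b _ => ?_
    rw [MvPolynomial.C_mul, mul_assoc]
  rw [Finset.sum_congr rfl fun a _ => h1 a, Finset.sum_comm]
  refine Finset.sum_congr rfl fun b _ => ?_
  rw [← Finset.sum_mul, ← map_sum]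
  rfl

open MvPolynomial in
theorem pdc {N : ℕ} (i j : Fin N) (f : MvPolynomial (Fin N) ℝ) : pderiv j (pderiv i f) = pderiv i (pderiv j f) := by
  have h1 : ∀ (a b k : Fin N), pderiv (R := ℝ) a (pderiv b (X k)) = 0 := by
    intro a b k
    rw [pderiv_X]
    by_cases hb : b = k
    · subst hb
      rw [Pi.single_eq_same]
      exact (pderiv a).map_one_eq_zero
    · rw [Pi.single_eq_of_ne' hb, map_zero]
  induction f using MvPolynomial.induction_on with
  | C c => rw [pderiv_C, pderiv_C, map_zero, map_zero]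
  | add f g hf hg => rw [map_add, map_add, map_add, map_add, hf, hg]
  | mul_X f n hf =>
    rw [pderiv_mul, pderiv_mul, map_add, map_add, pderiv_mul, pderiv_mul, pderiv_mul, pderiv_mul, hf, h1, h1]
    ring

/-- derivatives commute -/
theorem Tm_comm (i j : Fin N) : (Tm i : Matrix (Mon N D) (Mon N D) ℝ) * Tm j = Tm j * Tm i := by
  have h : ∀ i j : Fin N, ∀ a : Mon N D, pol ((Tm i * Tm j : Matrix (Mon N D) (Mon N D) ℝ) a) =
      MvPolynomial.pderiv j (MvPolynomial.pderiv i a.mon) := by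
    intro i j a
    rw [Tm_pol, pderiv_pol]
    rfl
  ext a b
  have h1 : (Tm i * Tm j : Matrix (Mon N D) (Mon N D) ℝ) a = (Tm j * Tm i : Matrix (Mon N D) (Mon N D) ℝ) a := by
    apply pol_inj
    rw [h, h]
    exact pdc _ _ _
  exact congrFun h1 b

/-- translation of one coordinate -/
def upz (z : Fin N) (p : Fin N → ℝ) (t : ℝ) : Fin N → ℝ := fun k => p k + t * (Pi.single z 1 : Fin N → ℝ) k

theorem upz_z (z : Fin N) (p : Fin N → ℝ) (t : ℝ) : upz z p t z = p z + t := by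
  unfold upz
  rw [Pi.single_eq_same, mul_one]

theorem upz_ne {z k : Fin N} (h : k ≠ z) (p : Fin N → ℝ) (t : ℝ) : upz z p t k = p k := by
  unfold upz
  rw [Pi.single_eq_of_ne h, mul_zero, add_zero]

theorem upz_nodp (z : Fin N) (p : Fin N → ℝ) (t r : ℝ) (j : Fin N → Fin (D + 1)) :
    nodp D (upz z p t) r j = upz z (nodp D p r j) t := by
  funext k
  unfold nodp upz
  ring

theorem upz_upz (z : Fin N) (p : Fin N → ℝ) (t : ℝ) : upz z (upz z p t) (-t) = p := by
  funext k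
  unfold upz
  ring

/-- GRONWALL in one direction, for vectors obtained by a matrix which commutes with the derivative -/
theorem gro1 (A : Matrix (Mon N D) (Mon N D) ℝ) (hA : PdM A) (z : Fin N) {B : ℝ} (hB : 0 ≤ B)
    (hT : ∀ v, qf A (Tm z *ᵥ v) ≤ B ^ 2 * qf A v) (T : Matrix (Mon N D) (Mon N D) ℝ) (hTc : T * Tm z = Tm z * T)
    (p : Fin N → ℝ) {t : ℝ} (ht : |t| * B ≤ 1) : qf A (T *ᵥ vv (upz z p t)) ≤ 9 * qf A (T *ᵥ vv p) := by
  classical
  obtain ⟨C, hC, -⟩ := exists_rows A hA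
  have h1 : ∀ v, qf A v = ‖ev2 C v‖ ^ 2 := by
    intro v
    rw [ev2_norm]
    unfold qf
    rw [hC, qf_rows]
    unfold Matrix.mulVec
    refine Finset.sum_congr rfl fun k _ => ?_
    rw [pow_two]
  have h2 : ∀ v, ‖ev2 C (Tm z *ᵥ v)‖ ≤ B * ‖ev2 C v‖ := by
    intro v
    apply le_of_sq_le_sq _ (mul_nonneg hB (norm_nonneg _))
    rw [mul_pow, ← h1, ← h1]
    exact hT v
  -- the path
  set q : ℝ → Fin N → ℝ := fun τ => upz z p (τ * t) with hq
  have hder : ∀ τ, HasDerivAt (fun τ => ev2 C (T *ᵥ vv (q τ))) (t • ev2 C (Tm z *ᵥ (T *ᵥ vv (q τ)))) τ := by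
    intro τ
    have e1 : q = fun τ => fun k => p k + τ * (t * (Pi.single z 1 : Fin N → ℝ) k) := by
      funext τ k
      show p k + τ * t * _ = _
      ring
    have d1 : ∀ a : Mon N D, HasDerivAt (fun τ => vv (q τ) a) (t * dd z (q τ) a) τ := by
      intro a
      rw [e1]
      have d2 := vv_deriv p (fun k => t * (Pi.single z 1 : Fin N → ℝ) k) a τ
      refine d2.congr_deriv ?_
      rw [Finset.sum_eq_single z]
      · rw [Pi.single_eq_same, mul_one]
      · intro b _ hb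
        rw [Pi.single_eq_of_ne hb, mul_zero, zero_mul]
      · intro h
        exact absurd (Finset.mem_univ z) h
    have e2 : t • ev2 C (Tm z *ᵥ (T *ᵥ vv (q τ))) =
        WithLp.toLp 2 (C *ᵥ (T *ᵥ (fun a => t * dd z (q τ) a))) := by
      have e3 : (fun a => t * (dd z (q τ) : Mon N D → ℝ) a) = t • (Tm z *ᵥ vv (q τ)) := by
        funext a
        rw [dd_eq]
        rfl
      have e4 : Tm z *ᵥ (T *ᵥ vv (q τ)) = T *ᵥ (Tm z *ᵥ vv (q τ)) := by
        rw [Matrix.mulVec_mulVec, Matrix.mulVec_mulVec, hTc]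
      rw [e3, e4, ← ev2_smul, Matrix.mulVec_smul T]
      rfl
    rw [e2]
    have d3 : HasDerivAt (fun τ => C *ᵥ (T *ᵥ vv (q τ))) (C *ᵥ (T *ᵥ (fun a => t * dd z (q τ) a))) τ := by
      rw [hasDerivAt_pi]
      intro j
      unfold Matrix.mulVec dotProduct
      apply HasDerivAt.fun_sum
      intro b _
      apply HasDerivAt.const_mul
      apply HasDerivAt.fun_sum
      intro a _
      exact (d1 a).const_mul (T b a)
    exact (PiLp.hasFDerivAt_toLp (𝕜 := ℝ) 2 _).comp_hasDerivAt τ d3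
  have h3 := gro_ab (fun τ => ev2 C (T *ᵥ vv (q τ))) (fun τ => t • ev2 C (Tm z *ᵥ (T *ᵥ vv (q τ)))) hder (|t| * B)
    (by positivity) ht (fun τ => by
      rw [norm_smul, Real.norm_eq_abs, mul_assoc]
      exact mul_le_mul_of_nonneg_left (h2 _) (abs_nonneg _))
  have e0 : q 0 = p := by
    funext k
    show p k + 0 * t * _ = _
    ring
  have e1 : q 1 = upz z p t := by
    show upz z p (1 * t) = _
    rw [one_mul]
  rw [e0, e1] at h3
  have h4 : ‖ev2 C (T *ᵥ vv (upz z p t))‖ ≤ 3 * ‖ev2 C (T *ᵥ vv p)‖ := by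
    have h5 := norm_sub_norm_le (ev2 C (T *ᵥ vv (upz z p t))) (ev2 C (T *ᵥ vv p))
    have h6 := norm_nonneg (ev2 C (T *ᵥ vv p))
    nlinarith
  rw [h1, h1]
  have h5 := pow_le_pow_left₀ (norm_nonneg _) h4 2
  rw [mul_pow] at h5
  norm_num at h5
  exact h5

/-- the size -/
theorem phi_upz (A : Matrix (Mon N D) (Mon N D) ℝ) (hA : PdM A) (z : Fin N) {B : ℝ} (hB : 0 ≤ B)
    (hT : ∀ v, qf A (Tm z *ᵥ v) ≤ B ^ 2 * qf A v) (r : ℝ) (p : Fin N → ℝ) {t : ℝ} (ht : |t| * B ≤ 1) :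
    phi r A (upz z p t) ≤ 9 * phi r A p := by
  unfold phi
  rw [Finset.mul_sum]
  refine Finset.sum_le_sum fun j _ => ?_
  rw [upz_nodp]
  have h1 := gro1 A hA z hB hT 1 (by rw [one_mul, mul_one]) (nodp D p r j) ht
  rw [Matrix.one_mulVec, Matrix.one_mulVec] at h1
  exact h1

/-- the matrix of the derivative in the direction `e` -/
def Te (e : Fin N → ℝ) : Matrix (Mon N D) (Mon N D) ℝ := ∑ b, e b • Tm b

theorem Te_comm (e : Fin N → ℝ) (z : Fin N) : (Te e : Matrix (Mon N D) (Mon N D) ℝ) * Tm z = Tm z * Te e := by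
  unfold Te
  rw [Finset.sum_mul, Finset.mul_sum]
  refine Finset.sum_congr rfl fun b _ => ?_
  rw [Matrix.smul_mul, Matrix.mul_smul, Tm_comm]

theorem Wq_Te (p e : Fin N → ℝ) : Wq N D p *ᵥ e = Te e *ᵥ vv p := by
  funext a
  unfold Te
  rw [Matrix.sum_mulVec, Finset.sum_apply]
  show ∑ b, Wq N D p a b * e b = _
  refine Finset.sum_congr rfl fun b _ => ?_
  rw [Matrix.smul_mulVec, ← dd_eq, mul_comm]
  rfl

/-- the gradients -/
theorem Jq_upz (A : Matrix (Mon N D) (Mon N D) ℝ) (hA : PdM A) (z : Fin N) {B : ℝ} (hB : 0 ≤ B)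
    (hT : ∀ v, qf A (Tm z *ᵥ v) ≤ B ^ 2 * qf A v) (r : ℝ) (p : Fin N → ℝ) {t : ℝ} (ht : |t| * B ≤ 1)
    (e : Fin N → ℝ) : e ⬝ᵥ (Jq r A (upz z p t) *ᵥ e) ≤ 9 * (e ⬝ᵥ (Jq r A p *ᵥ e)) := by
  rw [Jq_qf, Jq_qf, Finset.mul_sum]
  refine Finset.sum_le_sum fun j _ => ?_
  rw [upz_nodp, Wq_Te, Wq_Te]
  exact gro1 A hA z hB hT (Te e) (Te_comm e z) (nodp D p r j) ht

/-- the determinant does not drop along the fibre -/
theorem GQ_upz (A : Matrix (Mon N D) (Mon N D) ℝ) (hA : PdM A) (z : Fin N) {B : ℝ} (hB : 0 ≤ B)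
    (hT : ∀ v, qf A (Tm z *ᵥ v) ≤ B ^ 2 * qf A v) (r : ℝ) (p : Fin N → ℝ) {t : ℝ} (ht : |t| * B ≤ 1) :
    GQ r A p ≤ 9 ^ N * GQ r A (upz z p t) := by
  apply GQ_le_of r r A A hA.1 hA.nonneg hA.1 hA.nonneg (upz z p t) p 9 (by norm_num)
  intro e
  have h1 := Jq_upz A hA z hB hT r (upz z p t) (t := -t) (by rw [abs_neg]; exact ht) e
  rw [upz_upz] at h1
  exact h1

/-! ### the derivative form -/

/-- the identity plus the form of the derivative in the direction `z` -/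
def DZ (z : Fin N) (lam : ℝ) (A : Matrix (Mon N D) (Mon N D) ℝ) : Matrix (Mon N D) (Mon N D) ℝ :=
  1 + lam • ((Tm z).transpose * A * Tm z)

theorem DZ_qf (z : Fin N) (lam : ℝ) (A : Matrix (Mon N D) (Mon N D) ℝ) (v : Mon N D → ℝ) :
    qf (DZ z lam A) v = v ⬝ᵥ v + lam * qf A (Tm z *ᵥ v) := by
  unfold qf DZ
  rw [Pool.Agent.Helper95.LF.dv_add, Matrix.one_mulVec, Pool.Agent.Helper95.LF.dv_smul,
    Pool.Agent.Helper95.LF.dv_conj]

theorem DZ_symm (z : Fin N) (lam : ℝ) {A : Matrix (Mon N D) (Mon N D) ℝ} (hA : A.IsSymm) : (DZ z lam A).IsSymm := by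
  unfold DZ Matrix.IsSymm
  rw [Matrix.transpose_add, Matrix.transpose_one, Matrix.transpose_smul]
  congr 2
  rw [Matrix.transpose_mul, Matrix.transpose_mul, Matrix.transpose_transpose, hA.eq, Matrix.mul_assoc]

theorem DZ_ge (z : Fin N) {lam : ℝ} (hl : 0 ≤ lam) {A : Matrix (Mon N D) (Mon N D) ℝ} (hA : ∀ v, 0 ≤ qf A v)
    (v : Mon N D → ℝ) : v ⬝ᵥ v ≤ qf (DZ z lam A) v := by
  rw [DZ_qf]
  have : 0 ≤ lam * qf A (Tm z *ᵥ v) := mul_nonneg hl (hA _)
  linarith

/-- its size is the size of the gradient in the direction `z` -/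
theorem DZ_phi (z : Fin N) (lam : ℝ) (A : Matrix (Mon N D) (Mon N D) ℝ) (r : ℝ) (p : Fin N → ℝ) :
    phi r (DZ z lam A) p = phi r (1 : Matrix (Mon N D) (Mon N D) ℝ) p + lam * Jq r A p z z := by
  rw [Jq_apply]
  unfold phi
  rw [Finset.mul_sum, ← Finset.sum_add_distrib]
  refine Finset.sum_congr rfl fun j _ => ?_
  have h1 := DZ_qf z lam A (vv (nodp D p r j))
  unfold qf at h1
  rw [h1, Matrix.one_mulVec, dd_eq]

end

end Pool.Agent.Helper89.RAT
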